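import Pool.Agent.Lib_helper67.LR.Sel
import Pool.Agent.Lib_helper32.LRXIP
import Pool.Agent.Lib_helper96.LRXRZ
import Pool.Agent.Lib_helper52.LRXBB

/-!
Case B: bilinear forms.
-/

set_option autoImplicit false
set_option linter.unusedSectionVars false

namespace Pool.Agent.Lib_helper67.LR

open Finset Pool.Agent.Lib_helper78.LR Pool.Agent.Lib_helper55.LR

theorem sum_injOn_of_linIndep {V : Type} [AddCommGroup V] [Module (ZMod 2) V] [DecidableEq V]
    (Γ : Finset V) (hΓ : LinearIndependent (ZMod 2) (fun x : {x // x ∈ Γ} => (x : V)))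
    (w w' : Finset V) (hw : w ⊆ Γ) (hw' : w' ⊆ Γ) (h : ∑ g ∈ w, g = ∑ g ∈ w', g) : w = w' := by
  by_contra hne
  have hdis : Disjoint (w \ w') (w' \ w) := by
    rw [Finset.disjoint_left]
    intro x hx hx'
    exact (Finset.mem_sdiff.mp hx).2 (Finset.mem_sdiff.mp hx').1
  have h1 : ((w \ w') ∪ (w' \ w)).Nonempty := by
    rw [Finset.nonempty_iff_ne_empty]
    intro h2
    rw [Finset.union_eq_empty, Finset.sdiff_eq_empty_iff_subset,
      Finset.sdiff_eq_empty_iff_subset] at h2
    exact hne (Finset.Subset.antisymm h2.1 h2.2)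
  refine sum_ne_zero_of_linIndep Γ hΓ ((w \ w') ∪ (w' \ w)) ?_ h1 ?_
  · exact Finset.union_subset (Finset.sdiff_subset.trans hw) (Finset.sdiff_subset.trans hw')
  · rw [Finset.sum_union hdis]
    have e1 := Finset.sum_inter_add_sum_sdiff w w' (fun g : V => g)
    have e2 := Finset.sum_inter_add_sum_sdiff w' w (fun g : V => g)
    rw [Finset.inter_comm] at e2
    rw [add_eq_zero_iff']
    have e3 := e1.trans (h.trans e2.symm)
    exact add_left_cancel e3

open Classical in
theorem caseB {Ω : Type} [Fintype Ω] [DecidableEq Ω] (f : G Ω → ℝ) (hf : IsSign f)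
    (K : ℝ) (hK : Spread (spec f) K) (α₀ : G Ω) (hα₀ : α₀ ∈ spec f)
    (N : Finset (G Ω)) (hN : ∀ γ ∈ N, γ ∈ spec f ∧ γ ≠ α₀)
    (F : Finset (G Ω × G Ω)) (hF : F ⊆ N ×ˢ N) (b ρ₀ : ℝ) (hρ₀ : 0 ≤ ρ₀) (hb : 0 ≤ b)
    (hY : ∀ p ∈ F, p.1 ≠ p.2 ∧ b ≤ |nc f (α₀ + (p.1 + p.2))| ∧
      α₀ + (p.1 + p.2) ∈ spec f ∧ (Nn (spec f) (p.1 + p.2) : ℝ) ≤ ρ₀)
    (m k : ℕ) (hk : 0 < k) :
    (m : ℝ) ^ 2 * ((F.card : ℝ) - K * (2 * m + 1) * ρ₀) * b ≤ (N.card : ℝ) ^ 2 *
      (2 * (k : ℝ) ^ 2 * Real.sqrt (1 + K / k) * (1 + (∑ a, |nc f a|) / (k : ℝ) ^ 4)) := by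
  have hK0 : 0 ≤ K := Spread.nonneg hK
  have hbad : ∀ T : Finset (G Ω), T.card ≤ 2 * m → ((F.filter fun p =>
      p.1 ∈ Submodule.span (ZMod 2) (T : Set (G Ω)) ∨
      p.2 ∈ Submodule.span (ZMod 2) (T : Set (G Ω)) ∨
        p.1 + p.2 ∈ Submodule.span (ZMod 2) (T : Set (G Ω))).card : ℝ) ≤ K * (2 * m + 1) * ρ₀ := by
    intro T hT
    set T' := insert α₀ T with hT'
    have hsub : Submodule.span (ZMod 2) (T : Set (G Ω)) ≤
        Submodule.span (ZMod 2) (T' : Set (G Ω)) := Submodule.span_mono (by rw [hT']; simp)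
    have hαT : α₀ ∈ Submodule.span (ZMod 2) (T' : Set (G Ω)) :=
      Submodule.subset_span (by rw [hT']; simp)
    have hmem : ∀ p ∈ (F.filter fun p =>
        p.1 ∈ Submodule.span (ZMod 2) (T : Set (G Ω)) ∨
        p.2 ∈ Submodule.span (ZMod 2) (T : Set (G Ω)) ∨
        p.1 + p.2 ∈ Submodule.span (ZMod 2) (T : Set (G Ω))),
        α₀ + (p.1 + p.2) ∈ Bad (spec f) T' := by
      intro p hp
      rw [Finset.mem_filter] at hp
      obtain ⟨hpF, hp3⟩ := hp
      have hy := hY p hpF
      have hpN := Finset.mem_product.mp (hF hpF)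
      have h1 := hN _ hpN.1
      have h2 := hN _ hpN.2
      rw [mem_Bad]
      refine ⟨hy.2.2.1, ?_⟩
      rcases hp3 with h | h | h
      · refine ⟨p.2, h2.1, ?_, ?_⟩
        · intro h3
          apply h1.2
          have h4 : α₀ + (p.1 + p.2) = (α₀ + p.1) + p.2 := by abel
          rw [h4] at h3
          have h5 : α₀ + p.1 = 0 := by
            have := h3.symm
            simpa using this
          exact (add_eq_zero_iff'.mp h5).symm
        · have h4 : α₀ + (p.1 + p.2) + p.2 = α₀ + p.1 := by
            have := ZModModule.add_self p.2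
            calc α₀ + (p.1 + p.2) + p.2 = α₀ + p.1 + (p.2 + p.2) := by abel
              _ = _ := by rw [this, add_zero]
          rw [h4]
          exact Submodule.add_mem _ hαT (hsub h)
      · refine ⟨p.1, h1.1, ?_, ?_⟩
        · intro h3
          apply h2.2
          have h4 : α₀ + (p.1 + p.2) = (α₀ + p.2) + p.1 := by abel
          rw [h4] at h3
          have h5 : α₀ + p.2 = 0 := by
            have := h3.symm
            simpa using this
          exact (add_eq_zero_iff'.mp h5).symm
        · have h4 : α₀ + (p.1 + p.2) + p.1 = α₀ + p.2 := by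
            have := ZModModule.add_self p.1
            calc α₀ + (p.1 + p.2) + p.1 = α₀ + p.2 + (p.1 + p.1) := by abel
              _ = _ := by rw [this, add_zero]
          rw [h4]
          exact Submodule.add_mem _ hαT (hsub h)
      · refine ⟨α₀, hα₀, ?_, ?_⟩
        · intro h3
          apply hy.1
          have h5 : p.1 + p.2 = 0 := by
            have := h3.symm
            simpa using this
          exact add_eq_zero_iff'.mp h5
        · have h4 : α₀ + (p.1 + p.2) + α₀ = p.1 + p.2 := by
            have := ZModModule.add_self α₀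
            calc α₀ + (p.1 + p.2) + α₀ = p.1 + p.2 + (α₀ + α₀) := by abel
              _ = _ := by rw [this, add_zero]
          rw [h4]
          exact hsub h
    rw [Finset.card_eq_sum_card_fiberwise (f := fun p : G Ω × G Ω => α₀ + (p.1 + p.2))
      (t := Bad (spec f) T') (fun p hp => Finset.mem_coe.2 (hmem p (Finset.mem_coe.1 hp)))]
    push_cast
    calc _ ≤ ∑ x ∈ Bad (spec f) T', ρ₀ := by
          refine Finset.sum_le_sum fun β hβ => ?_
          rcases ((F.filter fun p =>
            p.1 ∈ Submodule.span (ZMod 2) (T : Set (G Ω)) ∨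
            p.2 ∈ Submodule.span (ZMod 2) (T : Set (G Ω)) ∨
            p.1 + p.2 ∈ Submodule.span (ZMod 2) (T : Set (G Ω))).filter
              fun p => α₀ + (p.1 + p.2) = β).eq_empty_or_nonempty with h | ⟨p, hp⟩
          · rw [h]; simpa using hρ₀
          · rw [Finset.mem_filter, Finset.mem_filter] at hp
            have h1 : p.1 + p.2 = α₀ + β := by
              rw [← hp.2, ← add_assoc, ZModModule.add_self, zero_add]
            have h2 := (hY p hp.1.1).2.2.2
            rw [h1] at h2
            refine le_trans ?_ h2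
            have h3 : ∀ p' ∈ ((F.filter fun p =>
                p.1 ∈ Submodule.span (ZMod 2) (T : Set (G Ω)) ∨
                p.2 ∈ Submodule.span (ZMod 2) (T : Set (G Ω)) ∨
                p.1 + p.2 ∈ Submodule.span (ZMod 2) (T : Set (G Ω))).filter
                  fun p => α₀ + (p.1 + p.2) = β), p'.2 = p'.1 + (α₀ + β) := by
              intro p' hp'
              rw [Finset.mem_filter] at hp'
              have h4 : p'.1 + p'.2 = α₀ + β := by
                rw [← hp'.2, ← add_assoc, ZModModule.add_self, zero_add]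
              rw [← h4, ← add_assoc, ZModModule.add_self, zero_add]
            have h5 : ((F.filter fun p =>
                p.1 ∈ Submodule.span (ZMod 2) (T : Set (G Ω)) ∨
                p.2 ∈ Submodule.span (ZMod 2) (T : Set (G Ω)) ∨
                p.1 + p.2 ∈ Submodule.span (ZMod 2) (T : Set (G Ω))).filter
                  fun p => α₀ + (p.1 + p.2) = β).card ≤
                ((spec f).filter fun z => z + (α₀ + β) ∈ spec f).card := by
              refine Finset.card_le_card_of_injOn Prod.fst ?_ ?_
              · intro p' hp'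
                have h6 := h3 p' (Finset.mem_coe.1 hp')
                rw [Finset.mem_coe, Finset.mem_filter, Finset.mem_filter] at hp'
                have hpN := Finset.mem_product.mp (hF hp'.1.1)
                rw [Finset.mem_coe, Finset.mem_filter, ← h6]
                exact ⟨(hN _ hpN.1).1, (hN _ hpN.2).1⟩
              · intro p' hp' p'' hp'' h
                have h6 := h3 p' (Finset.mem_coe.1 hp')
                have h7 := h3 p'' (Finset.mem_coe.1 hp'')
                refine Prod.ext h ?_
                rw [h6, h7]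
                exact congrArg (· + (α₀ + β)) h
            exact_mod_cast h5
      _ = (Bad (spec f) T').card * ρ₀ := by rw [Finset.sum_const, nsmul_eq_mul]
      _ ≤ (K * (2 * m + 1)) * ρ₀ := by
          refine mul_le_mul_of_nonneg_right ?_ hρ₀
          refine le_trans (hK _) (mul_le_mul_of_nonneg_left ?_ hK0)
          have h1 : T'.card ≤ 2 * m + 1 := by
            refine le_trans (Finset.card_insert_le _ _) ?_
            omega
          exact_mod_cast h1
  obtain ⟨I, J, hI, hJ, hdis, hind, hcount⟩ := exists_indep_pairs N F hF m _ hbad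
  set F' := F.filter fun p => p.1 ∈ I ∧ p.2 ∈ J with hF'
  have hF'sub : F' ⊆ I ×ˢ J := by
    intro p hp
    rw [hF', Finset.mem_filter] at hp
    exact Finset.mem_product.mpr hp.2
  have hb1 : ∀ x, |f x| ≤ 1 := by
    intro x
    rcases hf x with h | h <;> rw [h] <;> simp
  have hbil := bilinear_bound (nc f) α₀ I J hdis
    (fun r hr => riesz f hb1 α₀ (I ∪ J) hind r hr) (∑ a, |nc f a|) (by
      rw [← Finset.sum_image (s := (I ∪ J).powerset) (g := fun w => α₀ + ∑ g ∈ w, g)
        (f := fun a => |nc f a|)]
      · exact Finset.sum_le_sum_of_subset_of_nonneg (Finset.subset_univ _)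
          (fun _ _ _ => abs_nonneg _)
      · intro w hw w' hw' h
        rw [Finset.mem_coe, Finset.mem_powerset] at hw hw'
        exact sum_injOn_of_linIndep (I ∪ J) hind w w' hw hw' (add_left_cancel h)) F' hF'sub b hb
    (fun p hp => (hY p (Finset.mem_filter.mp hp).1).2.1) K (by
      intro i hi
      have hiN := hN i (hI hi)
      have h1 : α₀ + i ≠ 0 := by
        intro h
        exact hiN.2 (add_eq_zero_iff'.mp h).symm
      refine le_trans ?_ (Nn_le hK h1)
      have h2 : (F'.filter fun p => p.1 = i).card ≤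
          ((spec f).filter fun z => z + (α₀ + i) ∈ spec f).card := by
        refine Finset.card_le_card_of_injOn Prod.snd ?_ ?_
        · intro p hp
          rw [Finset.mem_coe, Finset.mem_filter] at hp
          have hpF := (Finset.mem_filter.mp hp.1).1
          have hpN := Finset.mem_product.mp (hF hpF)
          rw [Finset.mem_coe, Finset.mem_filter]
          refine ⟨(hN _ hpN.2).1, ?_⟩
          have h3 : p.2 + (α₀ + i) = α₀ + (p.1 + p.2) := by rw [← hp.2]; abel
          rw [h3]
          exact (hY p hpF).2.2.1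
        · intro p hp p' hp' h
          rw [Finset.mem_coe, Finset.mem_filter] at hp hp'
          exact Prod.ext (hp.2.trans hp'.2.symm) h
      exact_mod_cast h2) k hk
  calc (m : ℝ) ^ 2 * ((F.card : ℝ) - K * (2 * m + 1) * ρ₀) * b
      ≤ (N.card : ℝ) ^ 2 * (F'.card : ℝ) * b := mul_le_mul_of_nonneg_right hcount hb
    _ = (N.card : ℝ) ^ 2 * (b * F'.card) := by ring
    _ ≤ _ := mul_le_mul_of_nonneg_left hbil (by positivity)

end Pool.Agent.Lib_helper67.LR
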