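import Mathlib

/-!
Numerical inequalities between powers of a large real number.
-/

set_option autoImplicit false

namespace Pool.Agent.Lib_helper67.LR

theorem pw {X : ℝ} (hX : 1 ≤ X) {a b : ℕ} (h : a ≤ b) : X ^ a ≤ X ^ b := pow_le_pow_right₀ hX h

theorem cpw {X c : ℝ} (hX : 1 ≤ X) (hc : c ≤ X) {a b : ℕ} (h : a + 1 ≤ b) :
    c * X ^ a ≤ X ^ b := by
  calc c * X ^ a ≤ X * X ^ a := mul_le_mul_of_nonneg_right hc (by positivity)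
    _ = X ^ (a + 1) := by rw [pow_succ]; ring
    _ ≤ X ^ b := pw hX h

theorem floor_half {X : ℝ} (hX : 2 ≤ X) {a : ℕ} (ha : 1 ≤ a) :
    X ^ a / 2 ≤ (⌊X ^ a⌋₊ : ℝ) := by
  have h1 : X ^ a < (⌊X ^ a⌋₊ : ℝ) + 1 := Nat.lt_floor_add_one _
  have h2 : X ^ 1 ≤ X ^ a := pw (by linarith) ha
  rw [pow_one] at h2
  linarith

theorem floor_le' {X : ℝ} (hX : 0 ≤ X) (a : ℕ) : (⌊X ^ a⌋₊ : ℝ) ≤ X ^ a :=
  Nat.floor_le (by positivity)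

theorem num1 (q τ P s K ρ₀ ρ₁ Ω u v : ℝ) (hq : 0 < q) (hτ : 0 < τ) (hP : 0 < P) (hs : 0 < s)
    (hK : 0 ≤ K) (hu : 1 + ρ₁ + Ω * ρ₁ + Ω * ρ₀ ≤ u) (hv : 2 + 2 * ρ₁ ≤ v)
    (h1 : 128 * (u * s ^ 2) ≤ τ * P) (h2 : 128 * (K * s ^ 4 * v) ≤ τ * q * P ^ 2) :
    (1 + ρ₁) * (q ^ 2 * P + K * q * s ^ 2) + (K * q * s ^ 2 + q ^ 2 * Ω * ρ₁ * P) +
      (K * ρ₁ * q * s ^ 2 + q ^ 2 * Ω * ρ₀ * P) ≤ τ * q ^ 2 * P ^ 2 / (64 * s ^ 2) := by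
  rw [le_div_iff₀ (by positivity)]
  have e1 : q ^ 2 * P * (1 + ρ₁ + Ω * ρ₁ + Ω * ρ₀) ≤ q ^ 2 * P * u :=
    mul_le_mul_of_nonneg_left hu (by positivity)
  have e2 : K * q * s ^ 2 * (2 + 2 * ρ₁) ≤ K * q * s ^ 2 * v :=
    mul_le_mul_of_nonneg_left hv (by positivity)
  have e3 : q ^ 2 * P * (128 * (u * s ^ 2)) ≤ q ^ 2 * P * (τ * P) :=
    mul_le_mul_of_nonneg_left h1 (by positivity)
  have e4 : q * (128 * (K * s ^ 4 * v)) ≤ q * (τ * q * P ^ 2) :=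
    mul_le_mul_of_nonneg_left h2 hq.le
  calc ((1 + ρ₁) * (q ^ 2 * P + K * q * s ^ 2) + (K * q * s ^ 2 + q ^ 2 * Ω * ρ₁ * P) +
      (K * ρ₁ * q * s ^ 2 + q ^ 2 * Ω * ρ₀ * P)) * (64 * s ^ 2)
      = (q ^ 2 * P * (1 + ρ₁ + Ω * ρ₁ + Ω * ρ₀) + K * q * s ^ 2 * (2 + 2 * ρ₁)) *
          (64 * s ^ 2) := by ring
    _ ≤ (q ^ 2 * P * u + K * q * s ^ 2 * v) * (64 * s ^ 2) :=
        mul_le_mul_of_nonneg_right (add_le_add e1 e2) (by positivity)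
    _ = (q ^ 2 * P * (128 * (u * s ^ 2)) + q * (128 * (K * s ^ 4 * v))) / 2 := by ring
    _ ≤ (q ^ 2 * P * (τ * P) + q * (τ * q * P ^ 2)) / 2 := by linarith
    _ = τ * q ^ 2 * P ^ 2 := by ring

theorem num2 (q τ P s ρ₀ ρ₁ : ℝ) (hq : 0 < q) (hτ : 0 < τ) (hP : 0 < P) (hs : 0 < s)
    (h0 : q * ρ₀ ≤ s) (h1 : q * ρ₁ ≤ s) (h2 : 1 ≤ ρ₁)
    (h3 : 256 * (ρ₁ * s ^ 5) ≤ τ ^ 2 * q * P ^ 2) :
    q * s ^ 2 * (1 + q * ρ₁ / s) + ρ₁ * q * s ^ 2 * (1 + q * ρ₀ / s) ≤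
      τ ^ 2 * q ^ 2 * P ^ 2 / (64 * s ^ 3) := by
  have e1 : q * ρ₁ / s ≤ 1 := by rw [div_le_one hs]; exact h1
  have e2 : q * ρ₀ / s ≤ 1 := by rw [div_le_one hs]; exact h0
  rw [le_div_iff₀ (by positivity)]
  have e3 : q * s ^ 2 * (1 + q * ρ₁ / s) ≤ q * s ^ 2 * 2 :=
    mul_le_mul_of_nonneg_left (by linarith) (by positivity)
  have e4 : ρ₁ * q * s ^ 2 * (1 + q * ρ₀ / s) ≤ ρ₁ * q * s ^ 2 * 2 :=
    mul_le_mul_of_nonneg_left (by linarith) (by positivity)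
  have e5 : q * s ^ 2 * 2 ≤ ρ₁ * q * s ^ 2 * 2 := by
    have : 0 ≤ (ρ₁ - 1) * (q * s ^ 2 * 2) := mul_nonneg (by linarith) (by positivity)
    nlinarith
  calc (q * s ^ 2 * (1 + q * ρ₁ / s) + ρ₁ * q * s ^ 2 * (1 + q * ρ₀ / s)) * (64 * s ^ 3)
      ≤ (ρ₁ * q * s ^ 2 * 4) * (64 * s ^ 3) :=
        mul_le_mul_of_nonneg_right (by linarith) (by positivity)
    _ = q * (256 * (ρ₁ * s ^ 5)) := by ring
    _ ≤ q * (τ ^ 2 * q * P ^ 2) := mul_le_mul_of_nonneg_left h3 hq.le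
    _ = τ ^ 2 * q ^ 2 * P ^ 2 := by ring

/-- all the numerical conditions of case K -/
theorem numK (X : ℝ) (hX : 10 ^ 6 ≤ X) (hlog : Real.logb 2 (X ^ 20000) ≤ X) :
    (∀ P : ℝ, X ^ 39982 ≤ P →
      (1 + X ^ 9730) * ((⌊X ^ 9925⌋₊ : ℝ) ^ 2 * P + X ^ 10003 * ⌊X ^ 9925⌋₊ * (X ^ 20000) ^ 2) +
      (X ^ 10003 * ⌊X ^ 9925⌋₊ * (X ^ 20000) ^ 2 + (⌊X ^ 9925⌋₊ : ℝ) ^ 2 * X ^ 18 * X ^ 9730 * P) +
      (X ^ 10003 * X ^ 9730 * ⌊X ^ 9925⌋₊ * (X ^ 20000) ^ 2 +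
        (⌊X ^ 9925⌋₊ : ℝ) ^ 2 * X ^ 18 * X ^ 34 * P) ≤
        ⌊X ^ 9923⌋₊ * (⌊X ^ 9925⌋₊ : ℝ) ^ 2 * P ^ 2 / (64 * (X ^ 20000) ^ 2) ∧
      ⌊X ^ 9925⌋₊ * (X ^ 20000) ^ 2 * (1 + ⌊X ^ 9925⌋₊ * X ^ 9730 / X ^ 20000) +
        X ^ 9730 * ⌊X ^ 9925⌋₊ * (X ^ 20000) ^ 2 * (1 + ⌊X ^ 9925⌋₊ * X ^ 34 / X ^ 20000) ≤
      (⌊X ^ 9923⌋₊ : ℝ) ^ 2 * (⌊X ^ 9925⌋₊ : ℝ) ^ 2 * P ^ 2 / (64 * (X ^ 20000) ^ 3) ∧
      X ^ 18 * (⌊X ^ 9925⌋₊ * X ^ 20000) * (X ^ 10003 * X ^ 34 * (2 * ⌊X ^ 9925⌋₊ + 1)) <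
        ⌊X ^ 9925⌋₊ * P / 2) ∧
    6 * ⌊X ^ 9923⌋₊ * Real.logb 2 (X ^ 20000) < (⌊X ^ 9925⌋₊ : ℝ) ∧
    0 < ⌊X ^ 9925⌋₊ ∧ 0 < ⌊X ^ 9923⌋₊ := by
  have hX1 : (1 : ℝ) ≤ X := by linarith
  have hX2 : (2 : ℝ) ≤ X := by linarith
  have hX0 : (0 : ℝ) < X := by linarith
  obtain ⟨q1, q2⟩ : X ^ 9925 / 2 ≤ (⌊X ^ 9925⌋₊ : ℝ) ∧ (⌊X ^ 9925⌋₊ : ℝ) ≤ X ^ 9925 :=
    ⟨floor_half hX2 (by norm_num), floor_le' hX0.le _⟩
  obtain ⟨t1, t2⟩ : X ^ 9923 / 2 ≤ (⌊X ^ 9923⌋₊ : ℝ) ∧ (⌊X ^ 9923⌋₊ : ℝ) ≤ X ^ 9923 :=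
    ⟨floor_half hX2 (by norm_num), floor_le' hX0.le _⟩
  have hq0 : (0 : ℝ) < ⌊X ^ 9925⌋₊ := lt_of_lt_of_le (by positivity) q1
  have ht0 : (0 : ℝ) < ⌊X ^ 9923⌋₊ := lt_of_lt_of_le (by positivity) t1
  refine ⟨?_, ?_, by exact_mod_cast hq0, by exact_mod_cast ht0⟩
  · intro P hP
    have hP0 : 0 < P := lt_of_lt_of_le (by positivity) hP
    generalize hqq : (⌊X ^ 9925⌋₊ : ℝ) = q at *
    generalize htt : (⌊X ^ 9923⌋₊ : ℝ) = τ at *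
    refine ⟨?_, ?_, ?_⟩
    · refine num1 q τ P (X ^ 20000) (X ^ 10003) (X ^ 34) (X ^ 9730) (X ^ 18) (4 * X ^ 9748)
        (4 * X ^ 9730) hq0 ht0 hP0 (by positivity) (by positivity) ?_ ?_ ?_ ?_
      · have e1 : (1 : ℝ) ≤ X ^ 9748 := one_le_pow₀ hX1
        have e2 : X ^ 9730 ≤ X ^ 9748 := pw hX1 (by norm_num)
        have e3 : X ^ 18 * X ^ 9730 = X ^ 9748 := by rw [← pow_add]
        have e4 : X ^ 18 * X ^ 34 ≤ X ^ 9748 := by rw [← pow_add]; exact pw hX1 (by norm_num)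
        linarith
      · have e1 : (1 : ℝ) ≤ X ^ 9730 := one_le_pow₀ hX1
        linarith
      · have e1 : X ^ 9923 / 2 * X ^ 39982 ≤ τ * P :=
          mul_le_mul t1 hP (by positivity) ht0.le
        refine le_trans ?_ e1
        have e2 : X ^ 9923 / 2 * X ^ 39982 = X ^ 49905 / 2 := by
          rw [div_mul_eq_mul_div, ← pow_add]
        have e3 : 128 * (4 * X ^ 9748 * (X ^ 20000) ^ 2) = 512 * X ^ 49748 := by
          rw [← pow_mul, mul_assoc 4, ← pow_add]; ring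
        rw [e2, e3]
        have := cpw (c := 1024) hX1 (by linarith) (show 49748 + 1 ≤ 49905 by norm_num)
        linarith
      · have e1 : X ^ 9923 / 2 * (X ^ 9925 / 2) * (X ^ 39982) ^ 2 ≤ τ * q * P ^ 2 :=
          mul_le_mul (mul_le_mul t1 q1 (by positivity) ht0.le)
            (pow_le_pow_left₀ (by positivity) hP 2) (by positivity) (by positivity)
        refine le_trans ?_ e1
        have e2 : X ^ 9923 / 2 * (X ^ 9925 / 2) * (X ^ 39982) ^ 2 = X ^ 99812 / 4 := by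
          have : X ^ 9923 / 2 * (X ^ 9925 / 2) * (X ^ 39982) ^ 2 =
            (X ^ 9923 * X ^ 9925 * (X ^ 39982) ^ 2) / 4 := by ring
          rw [this, ← pow_mul, ← pow_add, ← pow_add]
        have e3 : 128 * (X ^ 10003 * (X ^ 20000) ^ 4 * (4 * X ^ 9730)) = 512 * X ^ 99733 := by
          have : 128 * (X ^ 10003 * (X ^ 20000) ^ 4 * (4 * X ^ 9730)) =
            512 * (X ^ 10003 * (X ^ 20000) ^ 4 * X ^ 9730) := by ring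
          rw [this, ← pow_mul, ← pow_add, ← pow_add]
        rw [e2, e3]
        have := cpw (c := 2048) hX1 (by linarith) (show 99733 + 1 ≤ 99812 by norm_num)
        linarith
    · refine num2 q τ P (X ^ 20000) (X ^ 34) (X ^ 9730) hq0 ht0 hP0 (by positivity) ?_ ?_ ?_ ?_
      · calc q * X ^ 34 ≤ X ^ 9925 * X ^ 34 := mul_le_mul_of_nonneg_right q2 (by positivity)
          _ ≤ X ^ 20000 := by rw [← pow_add]; exact pw hX1 (by norm_num)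
      · calc q * X ^ 9730 ≤ X ^ 9925 * X ^ 9730 := mul_le_mul_of_nonneg_right q2 (by positivity)
          _ ≤ X ^ 20000 := by rw [← pow_add]; exact pw hX1 (by norm_num)
      · exact one_le_pow₀ hX1
      · have e1 : (X ^ 9923 / 2) ^ 2 * (X ^ 9925 / 2) * (X ^ 39982) ^ 2 ≤ τ ^ 2 * q * P ^ 2 :=
          mul_le_mul (mul_le_mul (pow_le_pow_left₀ (by positivity) t1 2) q1 (by positivity)
            (by positivity)) (pow_le_pow_left₀ (by positivity) hP 2) (by positivity) (by positivity)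
        refine le_trans ?_ e1
        have e2 : (X ^ 9923 / 2) ^ 2 * (X ^ 9925 / 2) * (X ^ 39982) ^ 2 = X ^ 109735 / 8 := by
          have : (X ^ 9923 / 2) ^ 2 * (X ^ 9925 / 2) * (X ^ 39982) ^ 2 =
            ((X ^ 9923) ^ 2 * X ^ 9925 * (X ^ 39982) ^ 2) / 8 := by ring
          rw [this, ← pow_mul, ← pow_mul, ← pow_add, ← pow_add]
        have e3 : 256 * (X ^ 9730 * (X ^ 20000) ^ 5) = 256 * X ^ 109730 := by
          rw [← pow_mul, ← pow_add]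
        rw [e2, e3]
        have := cpw (c := 2048) hX1 (by linarith) (show 109730 + 1 ≤ 109735 by norm_num)
        linarith
    · have e1 : 2 * q + 1 ≤ 3 * X ^ 9925 := by
        have : (1 : ℝ) ≤ X ^ 9925 := one_le_pow₀ hX1
        linarith
      have e2 : X ^ 18 * X ^ 20000 * (X ^ 10003 * X ^ 34 * (2 * q + 1)) ≤
          X ^ 18 * X ^ 20000 * (X ^ 10003 * X ^ 34 * (3 * X ^ 9925)) := by
        gcongr
      have e3 : X ^ 18 * X ^ 20000 * (X ^ 10003 * X ^ 34 * (3 * X ^ 9925)) = 3 * X ^ 39980 := by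
        have : X ^ 18 * X ^ 20000 * (X ^ 10003 * X ^ 34 * (3 * X ^ 9925)) =
          3 * (X ^ 18 * X ^ 20000 * X ^ 10003 * X ^ 34 * X ^ 9925) := by ring
        rw [this, ← pow_add, ← pow_add, ← pow_add, ← pow_add]
      have e4 := cpw (c := 8) hX1 (by linarith) (show 39980 + 1 ≤ 39982 by norm_num)
      have e5 : (0 : ℝ) < X ^ 39980 := by positivity
      have e6 : X ^ 18 * X ^ 20000 * (X ^ 10003 * X ^ 34 * (2 * q + 1)) < P / 2 := by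
        rw [e3] at e2
        linarith
      calc X ^ 18 * (q * X ^ 20000) * (X ^ 10003 * X ^ 34 * (2 * q + 1))
          = q * (X ^ 18 * X ^ 20000 * (X ^ 10003 * X ^ 34 * (2 * q + 1))) := by ring
        _ < q * (P / 2) := mul_lt_mul_of_pos_left e6 hq0
        _ = q * P / 2 := by ring
  · have e1 : 6 * (⌊X ^ 9923⌋₊ : ℝ) * Real.logb 2 (X ^ 20000) ≤ 6 * X ^ 9923 * X := by
      have h0 : 0 ≤ Real.logb 2 (X ^ 20000) :=
        Real.logb_nonneg (by norm_num) (one_le_pow₀ hX1)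
      calc 6 * (⌊X ^ 9923⌋₊ : ℝ) * Real.logb 2 (X ^ 20000) ≤ 6 * X ^ 9923 * Real.logb 2 (X ^ 20000) :=
            mul_le_mul_of_nonneg_right (by linarith) h0
        _ ≤ 6 * X ^ 9923 * X := mul_le_mul_of_nonneg_left hlog (by positivity)
    have e2 : 6 * X ^ 9923 * X = 6 * X ^ 9924 := by rw [mul_assoc, ← pow_succ]
    have e3 := cpw (c := 13) hX1 (by linarith) (show 9924 + 1 ≤ 9925 by norm_num)
    have e4 : (0 : ℝ) < X ^ 9924 := by positivity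
    linarith

/-- the numerical contradiction of case B -/
theorem numB (X : ℝ) (hX : 10 ^ 6 ≤ X) (Fc Nc L : ℝ) (hF : X ^ 19991 ≤ Fc) (hN0 : 0 ≤ Nc)
    (hN : Nc ≤ X ^ 10296) (hL0 : 0 ≤ L) (hL : L ≤ X ^ 10000)
    (h : (⌊X ^ 9952⌋₊ : ℝ) ^ 2 * (Fc - X ^ 10003 * (2 * ⌊X ^ 9952⌋₊ + 1) * X ^ 34) *
      (X ^ 10004)⁻¹ ≤ Nc ^ 2 * (2 * (⌊X ^ 2500⌋₊ : ℝ) ^ 2 *
        Real.sqrt (1 + X ^ 10003 / ⌊X ^ 2500⌋₊) * (1 + L / (⌊X ^ 2500⌋₊ : ℝ) ^ 4))) : False := by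
  have hX1 : (1 : ℝ) ≤ X := by linarith
  have hX2 : (2 : ℝ) ≤ X := by linarith
  have hX0 : (0 : ℝ) < X := by linarith
  obtain ⟨m1, m2⟩ : X ^ 9952 / 2 ≤ (⌊X ^ 9952⌋₊ : ℝ) ∧ (⌊X ^ 9952⌋₊ : ℝ) ≤ X ^ 9952 :=
    ⟨floor_half hX2 (by norm_num), floor_le' hX0.le _⟩
  obtain ⟨k1, k2⟩ : X ^ 2500 / 2 ≤ (⌊X ^ 2500⌋₊ : ℝ) ∧ (⌊X ^ 2500⌋₊ : ℝ) ≤ X ^ 2500 :=
    ⟨floor_half hX2 (by norm_num), floor_le' hX0.le _⟩
  generalize (⌊X ^ 9952⌋₊ : ℝ) = m at *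
  generalize (⌊X ^ 2500⌋₊ : ℝ) = k at *
  have hk0 : 0 < k := lt_of_lt_of_le (by positivity) k1
  have hk3 : X ^ 2499 ≤ k := by
    have := cpw (c := 2) hX1 (by linarith) (show 2499 + 1 ≤ 2500 by norm_num)
    linarith
  -- left side
  have l1 : X ^ 10003 * (2 * m + 1) * X ^ 34 ≤ X ^ 19991 / 2 := by
    have e1 : 2 * m + 1 ≤ 3 * X ^ 9952 := by
      have : (1 : ℝ) ≤ X ^ 9952 := one_le_pow₀ hX1
      linarith
    have e2 : X ^ 10003 * (2 * m + 1) * X ^ 34 ≤ X ^ 10003 * (3 * X ^ 9952) * X ^ 34 := by gcongr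
    have e3 : X ^ 10003 * (3 * X ^ 9952) * X ^ 34 = 3 * X ^ 19989 := by
      have : X ^ 10003 * (3 * X ^ 9952) * X ^ 34 = 3 * (X ^ 10003 * X ^ 9952 * X ^ 34) := by ring
      rw [this, ← pow_add, ← pow_add]
    have := cpw (c := 6) hX1 (by linarith) (show 19989 + 1 ≤ 19991 by norm_num)
    linarith
  have l2 : X ^ 29890 * X ^ 10004 ≤ m ^ 2 * (Fc - X ^ 10003 * (2 * m + 1) * X ^ 34) := by
    have e1 : (X ^ 9952 / 2) ^ 2 * (X ^ 19991 / 2) ≤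
        m ^ 2 * (Fc - X ^ 10003 * (2 * m + 1) * X ^ 34) :=
      mul_le_mul (pow_le_pow_left₀ (by positivity) m1 2) (by linarith) (by positivity)
        (by positivity)
    refine le_trans ?_ e1
    have e2 : (X ^ 9952 / 2) ^ 2 * (X ^ 19991 / 2) = X ^ 39895 / 8 := by
      have : (X ^ 9952 / 2) ^ 2 * (X ^ 19991 / 2) = ((X ^ 9952) ^ 2 * X ^ 19991) / 8 := by ring
      rw [this, ← pow_mul, ← pow_add]
    have := cpw (c := 8) hX1 (by linarith) (show 39894 + 1 ≤ 39895 by norm_num)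
    rw [e2, ← pow_add]
    have e3 : X ^ (29890 + 10004) = X ^ 39894 := by norm_num
    rw [e3]
    linarith
  have l3 : X ^ 29890 ≤ m ^ 2 * (Fc - X ^ 10003 * (2 * m + 1) * X ^ 34) * (X ^ 10004)⁻¹ := by
    have := mul_le_mul_of_nonneg_right l2 (show (0 : ℝ) ≤ (X ^ 10004)⁻¹ by positivity)
    rwa [mul_assoc, mul_inv_cancel₀ (by positivity), mul_one] at this
  -- right side
  have r1 : Real.sqrt (1 + X ^ 10003 / k) ≤ X ^ 3753 := by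
    rw [Real.sqrt_le_left (by positivity), ← pow_mul,
      show X ^ (3753 * 2) = X ^ 7506 by norm_num]
    have e1 : X ^ 10003 / k ≤ X ^ 7504 := by
      rw [div_le_iff₀ hk0]
      calc X ^ 10003 = X ^ 7504 * X ^ 2499 := by rw [← pow_add]
        _ ≤ X ^ 7504 * k := mul_le_mul_of_nonneg_left hk3 (by positivity)
    have e2 : (1 : ℝ) ≤ X ^ 7504 := one_le_pow₀ hX1
    have := cpw (c := 2) hX1 (by linarith) (show 7504 + 1 ≤ 7506 by norm_num)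
    linarith
  have r2 : 1 + L / k ^ 4 ≤ X ^ 5 := by
    have e1 : L / k ^ 4 ≤ X ^ 4 := by
      rw [div_le_iff₀ (by positivity)]
      calc L ≤ X ^ 10000 := hL
        _ = X ^ 4 * (X ^ 2499) ^ 4 := by rw [← pow_mul, ← pow_add]
        _ ≤ X ^ 4 * k ^ 4 := mul_le_mul_of_nonneg_left
            (pow_le_pow_left₀ (by positivity) hk3 4) (by positivity)
    have e2 : (1 : ℝ) ≤ X ^ 4 := one_le_pow₀ hX1
    have := cpw (c := 2) hX1 (by linarith) (show 4 + 1 ≤ 5 by norm_num)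
    linarith
  have r3 : Nc ^ 2 * (2 * k ^ 2 * Real.sqrt (1 + X ^ 10003 / k) * (1 + L / k ^ 4)) ≤
      X ^ 29351 := by
    have e1 : Nc ^ 2 * (2 * k ^ 2 * Real.sqrt (1 + X ^ 10003 / k) * (1 + L / k ^ 4)) ≤
        (X ^ 10296) ^ 2 * (2 * (X ^ 2500) ^ 2 * X ^ 3753 * X ^ 5) := by
      gcongr
    refine le_trans e1 ?_
    have e2 : (X ^ 10296) ^ 2 * (2 * (X ^ 2500) ^ 2 * X ^ 3753 * X ^ 5) = 2 * X ^ 29350 := by
      have : (X ^ 10296) ^ 2 * (2 * (X ^ 2500) ^ 2 * X ^ 3753 * X ^ 5) =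
        2 * ((X ^ 10296) ^ 2 * (X ^ 2500) ^ 2 * X ^ 3753 * X ^ 5) := by ring
      rw [this, ← pow_mul, ← pow_mul, ← pow_add, ← pow_add, ← pow_add]
    rw [e2]
    exact cpw hX1 (by linarith) (by norm_num)
  have f1 : X ^ 29890 ≤ X ^ 29351 := le_trans l3 (le_trans h r3)
  have f2 := cpw (c := 2) hX1 (by linarith) (show 29351 + 1 ≤ 29890 by norm_num)
  have f3 : (0 : ℝ) < X ^ 29351 := by positivity
  linarith

end Pool.Agent.Lib_helper67.LR
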