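import Pool.Agent.Lib_helper67.LR.CaseB
import Pool.Agent.Lib_helper67.LR.Num
import Pool.Agent.Lib_helper96.LRXN4

/-!
The core: a spread spectrum with large spectral norm is impossible.
-/

set_option autoImplicit false
set_option linter.unusedSectionVars false

namespace Pool.Agent.Lib_helper67.LR

open Finset Pool.Agent.Lib_helper78.LR Pool.Agent.Lib_helper55.LR

variable {Ω : Type} [Fintype Ω] [DecidableEq Ω]

theorem nc_eq_zero_of_notMem (f : G Ω → ℝ) (a : G Ω) (h : a ∉ spec f) : nc f a = 0 := by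
  rw [mem_spec, not_not] at h
  unfold nc
  rw [h, zero_div]

theorem sum_abs_nc (f : G Ω → ℝ) : ∑ a, |nc f a| = ∑ a ∈ spec f, |nc f a| := by
  symm
  apply Finset.sum_subset (Finset.subset_univ _)
  intro a _ ha
  rw [nc_eq_zero_of_notMem f a ha, abs_zero]

theorem sum_abs_sq_le (f : G Ω → ℝ) (hf : IsSign f) (T : Finset (G Ω)) :
    (∑ a ∈ T, |nc f a|) ^ 2 ≤ T.card := by
  calc (∑ a ∈ T, |nc f a|) ^ 2 ≤ T.card * ∑ a ∈ T, |nc f a| ^ 2 := sq_sum_le_card_mul_sum_sq
    _ ≤ T.card * 1 := by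
        refine mul_le_mul_of_nonneg_left ?_ (Nat.cast_nonneg _)
        rw [← parseval f hf]
        calc ∑ a ∈ T, |nc f a| ^ 2 = ∑ a ∈ T, nc f a ^ 2 :=
              Finset.sum_congr rfl fun a _ => sq_abs _
          _ ≤ _ := Finset.sum_le_sum_of_subset_of_nonneg (Finset.subset_univ _)
              (fun _ _ _ => sq_nonneg _)
    _ = T.card := mul_one _

/-- many coefficients of medium size -/
theorem mid_card (f : G Ω → ℝ) (hf : IsSign f) (X : ℝ) (hX : 10 ^ 6 ≤ X)
    (hs : ((spec f).card : ℝ) = X ^ 20000) (hL : X ^ 9997 ≤ ∑ a, |nc f a|) :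
    X ^ 19993 ≤ (((spec f).filter fun a => (X ^ 10004)⁻¹ ≤ |nc f a|).card : ℝ) := by
  have hX1 : (1 : ℝ) ≤ X := by linarith
  have hX0 : (0 : ℝ) < X := by linarith
  rw [sum_abs_nc, ← Finset.sum_filter_add_sum_filter_not (spec f)
    (fun a => (X ^ 10004)⁻¹ ≤ |nc f a|)] at hL
  have h1 : ∑ a ∈ (spec f).filter (fun a => ¬ (X ^ 10004)⁻¹ ≤ |nc f a|), |nc f a| ≤ X ^ 9996 := by
    calc ∑ a ∈ (spec f).filter (fun a => ¬ (X ^ 10004)⁻¹ ≤ |nc f a|), |nc f a|
        ≤ ∑ a ∈ (spec f).filter (fun a => ¬ (X ^ 10004)⁻¹ ≤ |nc f a|), (X ^ 10004)⁻¹ := by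
          refine Finset.sum_le_sum fun a ha => ?_
          rw [Finset.mem_filter, not_le] at ha
          exact ha.2.le
      _ = ((spec f).filter (fun a => ¬ (X ^ 10004)⁻¹ ≤ |nc f a|)).card * (X ^ 10004)⁻¹ := by
          rw [Finset.sum_const, nsmul_eq_mul]
      _ ≤ X ^ 20000 * (X ^ 10004)⁻¹ := by
          refine mul_le_mul_of_nonneg_right ?_ (by positivity)
          rw [← hs]
          exact_mod_cast Finset.card_filter_le _ _
      _ = X ^ 9996 := by
          rw [show (20000 : ℕ) = 9996 + 10004 by norm_num, pow_add, mul_assoc,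
            mul_inv_cancel₀ (by positivity), mul_one]
  set M := (spec f).filter fun a => (X ^ 10004)⁻¹ ≤ |nc f a| with hM
  have h2 : X ^ 9997 / 2 ≤ ∑ a ∈ M, |nc f a| := by
    have := cpw (c := 2) hX1 (by linarith) (show 9996 + 1 ≤ 9997 by norm_num)
    linarith
  have h3 := sum_abs_sq_le f hf M
  have h4 : (X ^ 9997 / 2) ^ 2 ≤ (∑ a ∈ M, |nc f a|) ^ 2 := pow_le_pow_left₀ (by positivity) h2 2
  have h5 : (X ^ 9997 / 2) ^ 2 = X ^ 19994 / 4 := by
    rw [div_pow, ← pow_mul]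
    norm_num
  have := cpw (c := 4) hX1 (by linarith) (show 19993 + 1 ≤ 19994 by norm_num)
  linarith

/-- the elements with medium coefficient and small energy -/
theorem s1_card (f : G Ω → ℝ) (hf : IsSign f) (X : ℝ) (hX : 10 ^ 6 ≤ X)
    (hs : ((spec f).card : ℝ) = X ^ 20000) (hSp : Spread (spec f) (X ^ 10003))
    (hL : X ^ 9997 ≤ ∑ a, |nc f a|) :
    X ^ 19992 ≤ (((spec f).filter fun a => (X ^ 10004)⁻¹ ≤ |nc f a| ∧
      en (spec f) a ≤ X ^ 20025).card : ℝ) := by
  have hX1 : (1 : ℝ) ≤ X := by linarith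
  have hX2 : (2 : ℝ) ≤ X := by linarith
  have hX0 : (0 : ℝ) < X := by linarith
  have hmid := mid_card f hf X hX hs hL
  have hne : (spec f).Nonempty := by
    rw [← Finset.card_pos]
    have : (0 : ℝ) < (spec f).card := by rw [hs]; positivity
    exact_mod_cast this
  have q1 : X ^ 9988 / 2 ≤ (⌊X ^ 9988⌋₊ : ℝ) := floor_half hX2 (by norm_num)
  have q2 : (⌊X ^ 9988⌋₊ : ℝ) ≤ X ^ 9988 := floor_le' hX0.le _
  have q0 : (0 : ℝ) < ⌊X ^ 9988⌋₊ := lt_of_lt_of_le (by positivity) q1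
  have hte := typical_energy (spec f) hne (X ^ 10003) hSp ⌊X ^ 9988⌋₊ (by exact_mod_cast q0) (by
    rw [hs]
    calc 4 * (⌊X ^ 9988⌋₊ : ℝ) * X ^ 10003 ≤ 4 * X ^ 9988 * X ^ 10003 := by gcongr
      _ = 4 * X ^ 19991 := by rw [mul_assoc, ← pow_add]
      _ ≤ X ^ 20000 := cpw hX1 (by linarith) (by norm_num))
  set Z := (spec f).filter fun β => 3 / 2 * ((spec f).card : ℝ) ^ 2 ≤
    (⌊X ^ 9988⌋₊ : ℝ) ^ 2 * en (spec f) β with hZ
  have hZc : (Z.card : ℝ) ≤ 4 * X ^ 19991 := by
    refine le_trans hte ?_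
    calc 4 * X ^ 10003 * (⌊X ^ 9988⌋₊ : ℝ) ≤ 4 * X ^ 10003 * X ^ 9988 := by gcongr
      _ = 4 * X ^ 19991 := by rw [mul_assoc, ← pow_add]
  have hsub : ((spec f).filter fun a => (X ^ 10004)⁻¹ ≤ |nc f a|) ⊆
      ((spec f).filter fun a => (X ^ 10004)⁻¹ ≤ |nc f a| ∧ en (spec f) a ≤ X ^ 20025) ∪ Z := by
    intro a ha
    rw [Finset.mem_filter] at ha
    rw [Finset.mem_union]
    by_cases he : en (spec f) a ≤ X ^ 20025
    · left
      rw [Finset.mem_filter]
      exact ⟨ha.1, ha.2, he⟩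
    · right
      push Not at he
      rw [hZ, Finset.mem_filter]
      refine ⟨ha.1, ?_⟩
      rw [hs]
      have e1 : (X ^ 9988 / 2) ^ 2 * X ^ 20025 ≤ (⌊X ^ 9988⌋₊ : ℝ) ^ 2 * en (spec f) a :=
        mul_le_mul (pow_le_pow_left₀ (by positivity) q1 2) he.le (by positivity) (by positivity)
      refine le_trans ?_ e1
      have e2 : (X ^ 9988 / 2) ^ 2 * X ^ 20025 = X ^ 40001 / 4 := by
        rw [div_pow, ← pow_mul, div_mul_eq_mul_div, ← pow_add]
        norm_num
      rw [e2, ← pow_mul]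
      have := cpw (c := 6) hX1 (by linarith) (show 40000 + 1 ≤ 40001 by norm_num)
      have e3 : X ^ (20000 * 2) = X ^ 40000 := by norm_num
      rw [e3]
      linarith
  have h1 : (((spec f).filter fun a => (X ^ 10004)⁻¹ ≤ |nc f a|).card : ℝ) ≤
      (((spec f).filter fun a => (X ^ 10004)⁻¹ ≤ |nc f a| ∧ en (spec f) a ≤ X ^ 20025).card : ℝ) +
        Z.card := by
    exact_mod_cast le_trans (Finset.card_le_card hsub) (Finset.card_union_le _ _)
  have e4 := cpw (c := 8) hX1 (by linarith) (show 19991 + 1 ≤ 19992 by norm_num)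
  have e5 := cpw (c := 8) hX1 (by linarith) (show 19992 + 1 ≤ 19993 by norm_num)
  have e6 : (0 : ℝ) < X ^ 19992 := by positivity
  linarith

/-- an element of small energy has few partners with many representations -/
theorem partners_le (f : G Ω → ℝ) (hf : IsSign f) (α : G Ω) (hα : α ∈ spec f) (X : ℝ)
    (hX : 10 ^ 6 ≤ X) (hen : en (spec f) α ≤ X ^ 20025) (r : ℕ) (hr : 1 ≤ r) :
    (((spec f).filter fun β => β ≠ α ∧ X ^ r < (Nn (spec f) (α + β) : ℝ)).card : ℝ) * X ^ r ≤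
      2 * X ^ 20025 := by
  have hX1 : (1 : ℝ) ≤ X := by linarith
  have hXr : X ≤ X ^ r := by
    have := pw hX1 hr
    rwa [pow_one] at this
  have h1 : (((spec f).filter fun β => β ≠ α ∧ X ^ r < (Nn (spec f) (α + β) : ℝ)).card : ℝ) *
      (X ^ r / 2) ≤ en (spec f) α := by
    calc (((spec f).filter fun β => β ≠ α ∧ X ^ r < (Nn (spec f) (α + β) : ℝ)).card : ℝ) *
          (X ^ r / 2)
        = ∑ β ∈ (spec f).filter fun β => β ≠ α ∧ X ^ r < (Nn (spec f) (α + β) : ℝ), X ^ r / 2 := by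
          rw [Finset.sum_const, nsmul_eq_mul]
      _ ≤ ∑ β ∈ (spec f).filter fun β => β ≠ α ∧ X ^ r < (Nn (spec f) (α + β) : ℝ),
            ((Nn (spec f) (β + α) : ℝ) - 2) := by
          refine Finset.sum_le_sum fun β hβ => ?_
          rw [Finset.mem_filter] at hβ
          rw [add_comm β α]
          linarith [hβ.2.2]
      _ ≤ ∑ β ∈ (spec f).erase α, ((Nn (spec f) (β + α) : ℝ) - 2) := by
          refine Finset.sum_le_sum_of_subset_of_nonneg ?_ ?_
          · intro β hβ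
            rw [Finset.mem_filter] at hβ
            rw [Finset.mem_erase]
            exact ⟨hβ.2.1, hβ.1⟩
          · intro β hβ _
            rw [Finset.mem_erase] at hβ
            have h4 := four_le_Nn f hf β α hβ.2 hα hβ.1
            have : (4 : ℝ) ≤ Nn (spec f) (β + α) := by exact_mod_cast h4
            linarith
  linarith

open Classical in
theorem core (f : G Ω → ℝ) (hf : IsSign f) (X : ℝ) (hX : 10 ^ 6 ≤ X)
    (hs : ((spec f).card : ℝ) = X ^ 20000) (hlog : Real.logb 2 (X ^ 20000) ≤ X)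
    (hSp : Spread (spec f) (X ^ 10003)) (hL : X ^ 9997 ≤ ∑ a, |nc f a|) : False := by
  have hX1 : (1 : ℝ) ≤ X := by linarith
  have hX2 : (2 : ℝ) ≤ X := by linarith
  have hX0 : (0 : ℝ) < X := by linarith
  have hS1c := s1_card f hf X hX hs hSp hL
  set S1 := (spec f).filter fun a => (X ^ 10004)⁻¹ ≤ |nc f a| ∧ en (spec f) a ≤ X ^ 20025
    with hS1
  have hS1m : ∀ α ∈ S1, α ∈ spec f ∧ (X ^ 10004)⁻¹ ≤ |nc f α| ∧ en (spec f) α ≤ X ^ 20025 := by
    intro α hα
    rw [hS1, Finset.mem_filter] at hα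
    exact hα
  have hs1pos : (0 : ℝ) < S1.card := lt_of_lt_of_le (by positivity) hS1c
  set GP := (S1 ×ˢ S1).filter fun p => p.1 ≠ p.2 ∧ (Nn (spec f) (p.1 + p.2) : ℝ) ≤ X ^ 34 with hGP
  have hGPm : ∀ p ∈ GP, p.1 ∈ S1 ∧ p.2 ∈ S1 ∧ p.1 ≠ p.2 ∧
      (Nn (spec f) (p.1 + p.2) : ℝ) ≤ X ^ 34 := by
    intro p hp
    rw [hGP, Finset.mem_filter, Finset.mem_product] at hp
    exact ⟨hp.1.1, hp.1.2, hp.2.1, hp.2.2⟩
  have hGPc : 3 / 4 * (S1.card : ℝ) ^ 2 ≤ GP.card := by
    have e1 : ((S1 ×ˢ S1).card : ℝ) = GP.card + ((S1 ×ˢ S1).filter fun p =>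
        ¬ (p.1 ≠ p.2 ∧ (Nn (spec f) (p.1 + p.2) : ℝ) ≤ X ^ 34)).card := by
      rw [hGP]
      exact_mod_cast (Finset.card_filter_add_card_filter_not (s := S1 ×ˢ S1) _).symm
    have e2 : (((S1 ×ˢ S1).filter fun p =>
        ¬ (p.1 ≠ p.2 ∧ (Nn (spec f) (p.1 + p.2) : ℝ) ≤ X ^ 34)).card : ℝ) ≤
        S1.card * (S1.card / 4) := by
      rw [Finset.card_eq_sum_card_fiberwise (f := Prod.fst) (t := S1) (by
        intro p hp
        rw [Finset.mem_coe, Finset.mem_filter, Finset.mem_product] at hp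
        exact Finset.mem_coe.2 hp.1.1)]
      push_cast
      calc ∑ α ∈ S1, ((((S1 ×ˢ S1).filter fun p =>
          ¬ (p.1 ≠ p.2 ∧ (Nn (spec f) (p.1 + p.2) : ℝ) ≤ X ^ 34)).filter
            fun p => p.1 = α).card : ℝ) ≤ ∑ α ∈ S1, (S1.card : ℝ) / 4 := by
            refine Finset.sum_le_sum fun α hα => ?_
            have hαm := hS1m α hα
            have h1 := partners_le f hf α hαm.1 X hX hαm.2.2 34 (by norm_num)
            set B := (spec f).filter fun β => β ≠ α ∧ X ^ 34 < (Nn (spec f) (α + β) : ℝ) with hB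
            have h2 : (B.card : ℝ) ≤ 2 * X ^ 19991 := by
              have h3 : (B.card : ℝ) * X ^ 34 ≤ (2 * X ^ 19991) * X ^ 34 := by
                rw [mul_assoc, ← pow_add]
                exact h1
              exact le_of_mul_le_mul_right h3 (by positivity)
            have h4 : (((S1 ×ˢ S1).filter fun p =>
                ¬ (p.1 ≠ p.2 ∧ (Nn (spec f) (p.1 + p.2) : ℝ) ≤ X ^ 34)).filter
                  fun p => p.1 = α).card ≤ (insert α B).card := by
              refine Finset.card_le_card_of_injOn Prod.snd ?_ ?_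
              · intro p hp
                rw [Finset.mem_coe, Finset.mem_filter, Finset.mem_filter,
                  Finset.mem_product] at hp
                obtain ⟨⟨⟨hp1, hp2⟩, hp3⟩, hp4⟩ := hp
                rw [Finset.mem_coe, Finset.mem_insert]
                by_cases h5 : p.2 = α
                · exact Or.inl h5
                · right
                  rw [hB, Finset.mem_filter]
                  refine ⟨(hS1m _ hp2).1, h5, ?_⟩
                  by_contra h6
                  push Not at h6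
                  apply hp3
                  refine ⟨fun h7 => h5 (h7.symm.trans hp4), ?_⟩
                  rw [hp4]
                  exact h6
              · intro p hp p' hp' h
                rw [Finset.mem_coe, Finset.mem_filter] at hp hp'
                exact Prod.ext (hp.2.trans hp'.2.symm) h
            have h5 : ((((S1 ×ˢ S1).filter fun p =>
                ¬ (p.1 ≠ p.2 ∧ (Nn (spec f) (p.1 + p.2) : ℝ) ≤ X ^ 34)).filter
                  fun p => p.1 = α).card : ℝ) ≤ B.card + 1 := by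
              exact_mod_cast le_trans h4 (Finset.card_insert_le _ _)
            have h6 := cpw (c := 16) hX1 (by linarith) (show 19991 + 1 ≤ 19992 by norm_num)
            have h7 : (1 : ℝ) ≤ X ^ 19991 := one_le_pow₀ hX1
            linarith
        _ = S1.card * (S1.card / 4) := by rw [Finset.sum_const, nsmul_eq_mul]
    rw [Finset.card_product] at e1
    push_cast at e1
    have e3 : (S1.card : ℝ) ^ 2 = S1.card * S1.card := sq _
    have e4 : (S1.card : ℝ) * (S1.card / 4) = S1.card * S1.card / 4 := by ring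
    rw [e4] at e2
    linarith
  -- the second representations
  have hcd : ∀ p : G Ω × G Ω, ∃ c d : G Ω, p ∈ GP → (c ∈ spec f ∧ d ∈ spec f ∧ c ≠ p.1 ∧
      c ≠ p.2 ∧ d ≠ p.1 ∧ d ≠ p.2 ∧ p.1 + p.2 = c + d ∧
      Nn (spec f) (p.1 + c) ≤ Nn (spec f) (p.1 + d)) := by
    intro p
    by_cases hp : p ∈ GP
    · have hpm := hGPm p hp
      obtain ⟨c, d, h⟩ := exists_cd (spec f) p.1 p.2
        (four_le_Nn f hf p.1 p.2 (hS1m _ hpm.1).1 (hS1m _ hpm.2.1).1 hpm.2.2.1)
      exact ⟨c, d, fun _ => h⟩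
    · exact ⟨0, 0, fun h => absurd h hp⟩
  choose c d hcd using hcd
  set PK := GP.filter fun p => (Nn (spec f) (p.1 + c p) : ℝ) ≤ X ^ 9730 with hPK
  set PB := GP.filter fun p => ¬ ((Nn (spec f) (p.1 + c p) : ℝ) ≤ X ^ 9730) with hPB
  have hsplit : (GP.card : ℝ) = PK.card + PB.card := by
    rw [hPK, hPB]
    exact_mod_cast (Finset.card_filter_add_card_filter_not (s := GP) _).symm
  by_cases hcase : 3 / 8 * (S1.card : ℝ) ^ 2 ≤ PK.card
  · -- case K
    have hPKm : ∀ p ∈ PK, p ∈ GP ∧ (Nn (spec f) (p.1 + c p) : ℝ) ≤ X ^ 9730 := by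
      intro p hp
      rw [hPK, Finset.mem_filter] at hp
      exact hp
    have e1 : X ^ 39984 ≤ (S1.card : ℝ) ^ 2 := by
      calc X ^ 39984 = (X ^ 19992) ^ 2 := by rw [← pow_mul]
        _ ≤ (S1.card : ℝ) ^ 2 := pow_le_pow_left₀ (by positivity) hS1c 2
    have e2 : X ^ 39983 ≤ (PK.card : ℝ) := by
      have := cpw (c := 4) hX1 (by linarith) (show 39983 + 1 ≤ 39984 by norm_num)
      have : (0 : ℝ) < X ^ 39983 := by positivity
      linarith
    obtain ⟨n1, n2, n3, n4⟩ := numK X hX hlog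
    refine caseK_pairs (spec f) (X ^ 10003) hSp PK c d ?_ (X ^ 34) (X ^ 9730) (by positivity)
      (by positivity) (fun p hp => (hGPm p (hPKm p hp).1).2.2.2) (fun p hp => (hPKm p hp).2)
      (X ^ 20000) (X ^ 18) hs.symm ?_ (by positivity) ?_ ⌊X ^ 9925⌋₊ ⌊X ^ 9923⌋₊ n3 n4 ?_ n2
    · intro p hp
      have h1 := hGPm p (hPKm p hp).1
      have h2 := hcd p (hPKm p hp).1
      exact ⟨(hS1m _ h1.1).1, (hS1m _ h1.2.1).1, h2.1, h2.2.1, h1.2.2.1, h2.2.2.1, h2.2.2.2.1,
        h2.2.2.2.2.1, h2.2.2.2.2.2.1, h2.2.2.2.2.2.2.1⟩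
    · rw [← Finset.card_pos]
      have : (0 : ℝ) < PK.card := lt_of_lt_of_le (by positivity) e2
      exact_mod_cast this
    · calc 4 * (X ^ 20000) ^ 2 = 4 * X ^ 40000 := by rw [← pow_mul]
        _ ≤ X ^ 40001 := cpw hX1 (by linarith) (by norm_num)
        _ = X ^ 18 * X ^ 39983 := by rw [← pow_add]
        _ ≤ X ^ 18 * PK.card := mul_le_mul_of_nonneg_left e2 (by positivity)
    · intro P hP
      refine n1 P (le_trans ?_ hP)
      have := cpw (c := 2) hX1 (by linarith) (show 39982 + 1 ≤ 39983 by norm_num)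
      have : (0 : ℝ) < X ^ 39982 := by positivity
      linarith
  · -- case B
    push Not at hcase
    have hPBc : 3 / 8 * (S1.card : ℝ) ^ 2 ≤ PB.card := by linarith
    have hPBm : ∀ p ∈ PB, p ∈ GP ∧ X ^ 9730 < (Nn (spec f) (p.1 + c p) : ℝ) := by
      intro p hp
      rw [hPB, Finset.mem_filter, not_le] at hp
      exact hp
    obtain ⟨α₀, hα₀, hYc⟩ : ∃ α ∈ S1, 3 / 8 * (S1.card : ℝ) ≤
        ((PB.filter fun p => p.1 = α).card : ℝ) := by
      by_contra hcon
      push Not at hcon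
      have h1 : (PB.card : ℝ) < 3 / 8 * (S1.card : ℝ) ^ 2 := by
        rw [Finset.card_eq_sum_card_fiberwise (f := Prod.fst) (t := S1) (by
          intro p hp
          exact Finset.mem_coe.2 (hGPm p (hPBm p (Finset.mem_coe.1 hp)).1).1)]
        push_cast
        calc ∑ α ∈ S1, ((PB.filter fun p => p.1 = α).card : ℝ)
            < ∑ α ∈ S1, 3 / 8 * (S1.card : ℝ) := by
              refine Finset.sum_lt_sum_of_nonempty ?_ fun α hα => hcon α hα
              rw [← Finset.card_pos]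
              exact_mod_cast hs1pos
          _ = 3 / 8 * (S1.card : ℝ) ^ 2 := by
              rw [Finset.sum_const, nsmul_eq_mul]
              ring
      linarith
    have hα₀m := hS1m α₀ hα₀
    set N := (spec f).filter fun γ => γ ≠ α₀ ∧ X ^ 9730 < (Nn (spec f) (α₀ + γ) : ℝ) with hN
    have hNc : (N.card : ℝ) ≤ X ^ 10296 := by
      have h1 := partners_le f hf α₀ hα₀m.1 X hX hα₀m.2.2 9730 (by norm_num)
      rw [← hN] at h1
      have h2 : (N.card : ℝ) ≤ 2 * X ^ 10295 := by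
        have h3 : (N.card : ℝ) * X ^ 9730 ≤ (2 * X ^ 10295) * X ^ 9730 := by
          rw [mul_assoc, ← pow_add]
          exact h1
        exact le_of_mul_le_mul_right h3 (by positivity)
      exact le_trans h2 (cpw hX1 (by linarith) (by norm_num))
    set Y := PB.filter fun p => p.1 = α₀ with hY
    have hYm : ∀ p ∈ Y, p ∈ GP ∧ X ^ 9730 < (Nn (spec f) (p.1 + c p) : ℝ) ∧ p.1 = α₀ := by
      intro p hp
      rw [hY, Finset.mem_filter] at hp
      exact ⟨(hPBm p hp.1).1, (hPBm p hp.1).2, hp.2⟩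
    set F := Y.image fun p => (c p, d p) with hF
    have hFc : (F.card : ℝ) = Y.card := by
      rw [hF, Finset.card_image_of_injOn]
      intro p hp p' hp' h
      have h1 := hYm p (Finset.mem_coe.1 hp)
      have h2 := hYm p' (Finset.mem_coe.1 hp')
      have h3 := (hcd p h1.1).2.2.2.2.2.2.1
      have h4 := (hcd p' h2.1).2.2.2.2.2.2.1
      simp only [Prod.mk.injEq] at h
      refine Prod.ext (h1.2.2.trans h2.2.2.symm) ?_
      rw [← h.1, ← h.2, ← h3, h1.2.2, h2.2.2] at h4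
      exact (add_left_cancel h4).symm
    have hFN : F ⊆ N ×ˢ N := by
      intro p hp
      rw [hF, Finset.mem_image] at hp
      obtain ⟨p', hp', rfl⟩ := hp
      have h1 := hYm p' hp'
      have h2 := hcd p' h1.1
      rw [Finset.mem_product, hN, Finset.mem_filter, Finset.mem_filter]
      have h3 : (Nn (spec f) (p'.1 + c p') : ℝ) ≤ Nn (spec f) (p'.1 + d p') := by
        exact_mod_cast h2.2.2.2.2.2.2.2
      have h4 := h1.2.1
      rw [h1.2.2] at h3 h4
      refine ⟨⟨h2.1, ?_, h4⟩, ⟨h2.2.1, ?_, lt_of_lt_of_le h4 h3⟩⟩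
      · rw [← h1.2.2]; exact h2.2.2.1
      · rw [← h1.2.2]; exact h2.2.2.2.2.1
    have hYF : ∀ p ∈ F, p.1 ≠ p.2 ∧ (X ^ 10004)⁻¹ ≤ |nc f (α₀ + (p.1 + p.2))| ∧
        α₀ + (p.1 + p.2) ∈ spec f ∧ (Nn (spec f) (p.1 + p.2) : ℝ) ≤ X ^ 34 := by
      intro p hp
      rw [hF, Finset.mem_image] at hp
      obtain ⟨p', hp', rfl⟩ := hp
      have h1 := hYm p' hp'
      have h2 := hcd p' h1.1
      have h3 := hGPm p' h1.1
      have h4 : α₀ + (c p' + d p') = p'.2 := by
        rw [← h2.2.2.2.2.2.2.1, h1.2.2, ← add_assoc, ZModModule.add_self, zero_add]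
      simp only
      rw [h4]
      refine ⟨?_, (hS1m _ h3.2.1).2.1, (hS1m _ h3.2.1).1, ?_⟩
      · intro h5
        apply h3.2.2.1
        rw [h5, ZModModule.add_self] at h2
        exact add_eq_zero_iff'.mp h2.2.2.2.2.2.2.1
      · rw [← h2.2.2.2.2.2.2.1]
        exact h3.2.2.2
    have hk0 : 0 < ⌊X ^ 2500⌋₊ := by
      have h1 := floor_half hX2 (show 1 ≤ 2500 by norm_num)
      have : (0 : ℝ) < (⌊X ^ 2500⌋₊ : ℝ) := lt_of_lt_of_le (by positivity) h1
      exact_mod_cast this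
    have hB := caseB f hf (X ^ 10003) hSp α₀ hα₀m.1 N
      (fun γ hγ => ⟨(Finset.mem_filter.mp hγ).1, (Finset.mem_filter.mp hγ).2.1⟩) F hFN
      (X ^ 10004)⁻¹ (X ^ 34) (by positivity) (by positivity) hYF ⌊X ^ 9952⌋₊ ⌊X ^ 2500⌋₊ hk0
    refine numB X hX F.card N.card (∑ a, |nc f a|) ?_ (Nat.cast_nonneg _) hNc
      (Finset.sum_nonneg fun _ _ => abs_nonneg _) ?_ hB
    · rw [hFc]
      refine le_trans ?_ hYc
      have := cpw (c := 4) hX1 (by linarith) (show 19991 + 1 ≤ 19992 by norm_num)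
      have : (0 : ℝ) < X ^ 19991 := by positivity
      linarith
    · have h1 := sum_abs_sq_le f hf (spec f)
      rw [← sum_abs_nc, hs] at h1
      have h2 : (∑ a, |nc f a|) ^ 2 ≤ (X ^ 10000) ^ 2 := by rw [← pow_mul]; exact h1
      exact (pow_le_pow_iff_left₀ (Finset.sum_nonneg fun _ _ => abs_nonneg _) (by positivity)
        (by norm_num)).mp h2

end Pool.Agent.Lib_helper67.LR
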