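import Pool.Agent.Lib_helper78.LR.Fourier
import Pool.Agent.Lib_helper78.LR.Defs

/-!
Definitions for the power saving in the log-rank conjecture for XOR functions.
-/

set_option autoImplicit false

namespace Pool.Agent.Lib_helper67.LR

open Finset Pool.Agent.Lib_helper78.LR

section Comb

variable {V : Type} [AddCommGroup V] [Module (ZMod 2) V] [DecidableEq V]

/-- the number of `z ∈ S` with `z + η ∈ S` -/
def Nn (S : Finset V) (η : V) : ℕ := (S.filter fun z => z + η ∈ S).card

open Classical in
/-- the elements of `S` that are congruent to another element of `S` modulo the span of `T` -/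
noncomputable def Bad (S T : Finset V) : Finset V :=
  S.filter fun β => ∃ β' ∈ S, β' ≠ β ∧ β + β' ∈ Submodule.span (ZMod 2) (T : Set V)

/-- few elements of `S` become congruent modulo a small set -/
def Spread (S : Finset V) (K : ℝ) : Prop :=
  ∀ T : Finset V, ((Bad S T).card : ℝ) ≤ K * T.card

/-- the energy at `β` -/
noncomputable def en (S : Finset V) (β : V) : ℝ := ∑ a ∈ S.erase β, ((Nn S (a + β) : ℝ) - 2)

theorem mem_Bad (S T : Finset V) (β : V) : β ∈ Bad S T ↔
    β ∈ S ∧ ∃ β' ∈ S, β' ≠ β ∧ β + β' ∈ Submodule.span (ZMod 2) (T : Set V) := by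
  classical
  simp [Bad]

end Comb

section Fourier

variable {Ω : Type} [Fintype Ω] [DecidableEq Ω]

/-- the normalised Fourier coefficient -/
noncomputable def nc (f : G Ω → ℝ) (a : G Ω) : ℝ := coef f a / 2 ^ Fintype.card Ω

/-- `±1`-valued -/
def IsSign (f : G Ω → ℝ) : Prop := ∀ x, f x = 1 ∨ f x = -1

/-- `f` is constant on an affine subspace given by at most `c` parities -/
def Kill (f : G Ω → ℝ) (c : ℝ) : Prop :=
  ∃ T : Finset (G Ω), ∃ x₀ : G Ω, (T.card : ℝ) ≤ c ∧
    ∀ x, (∀ a ∈ T, chi a x = chi a x₀) → f x = f x₀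

end Fourier

end Pool.Agent.Lib_helper67.LR
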