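import Pool.Agent.Lib_helper67.LR.Core
import Pool.Agent.Lib_helper36.LRXRS
import Pool.Agent.Lib_helper52.LRXFB
import Pool.Agent.Lib_helper73.LRXPR

/-!
The minimal counterexample and the final theorem.
-/

set_option autoImplicit false
set_option linter.unusedSectionVars false

namespace Pool.Agent.Lib_helper67.LR

open Finset Pool.Agent.Lib_helper78.LR Pool.Agent.Lib_helper55.LR

theorem Kill.mono {Ω : Type} [Fintype Ω] [DecidableEq Ω] {f : G Ω → ℝ} {c c' : ℝ} (h : Kill f c)
    (hc : c ≤ c') : Kill f c' := by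
  obtain ⟨T, x₀, h1, h2⟩ := h
  exact ⟨T, x₀, h1.trans hc, h2⟩

/-- the trivial bound -/
theorem kill_card {Ω : Type} [Fintype Ω] [DecidableEq Ω] (f : G Ω → ℝ) :
    Kill f (spec f).card := by
  refine ⟨spec f, 0, le_rfl, fun x hx => ?_⟩
  rw [← fb_inversion f x, ← fb_inversion f 0]
  refine Finset.sum_congr rfl fun a _ => ?_
  by_cases ha : a ∈ spec f
  · rw [hx a ha]
  · rw [nc_eq_zero_of_notMem f a ha]; simp

theorem Spread.mono {V : Type} [AddCommGroup V] [Module (ZMod 2) V] [DecidableEq V]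
    {S : Finset V} {K K' : ℝ} (h : Spread S K) (hK : K ≤ K') : Spread S K' := by
  intro T
  exact (h T).trans (mul_le_mul_of_nonneg_right hK (Nat.cast_nonneg _))

/-- the exponent -/
noncomputable def κ : ℝ := 4999 / 10000

theorem exists_large : ∃ X₁ : ℝ, 10 ^ 6 ≤ X₁ ∧ ∀ X, X₁ ≤ X → Real.logb 2 (X ^ 20000) ≤ X := by
  have h := (Real.isLittleO_log_id_atTop).def (show (0 : ℝ) < Real.log 2 / 20000 by
    have := Real.log_pos (show (1 : ℝ) < 2 by norm_num)
    positivity)
  rw [Filter.eventually_atTop] at h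
  obtain ⟨a, ha⟩ := h
  refine ⟨max a (10 ^ 6), le_max_right _ _, fun X hX => ?_⟩
  have h1 := ha X ((le_max_left _ _).trans hX)
  have hX6 : (10 : ℝ) ^ 6 ≤ X := (le_max_right _ _).trans hX
  have hX1 : (1 : ℝ) ≤ X := by linarith
  have hlog2 : 0 < Real.log 2 := Real.log_pos (by norm_num)
  simp only [id, Real.norm_eq_abs] at h1
  rw [abs_of_nonneg (Real.log_nonneg hX1), abs_of_nonneg (by linarith : (0 : ℝ) ≤ X)] at h1
  rw [Real.logb_pow, Real.logb, mul_div_assoc', div_le_iff₀ hlog2]
  push_cast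
  nlinarith

theorem kill_all : ∃ A : ℝ, 0 ≤ A ∧ ∀ {Ω : Type} [Fintype Ω] [DecidableEq Ω] (f : G Ω → ℝ),
    IsSign f → Kill f (A * ((spec f).card : ℝ) ^ κ) := by
  obtain ⟨X₁, hX₁, hlog⟩ := exists_large
  have hX₁0 : 0 < X₁ := by linarith
  set A : ℝ := max 3 (X₁ ^ 20000) with hA
  have hA3 : 3 ≤ A := le_max_left _ _
  have hAX : X₁ ^ 20000 ≤ A := le_max_right _ _
  refine ⟨A, by linarith, ?_⟩
  intro Ω _ _ f hf
  induction hn : (spec f).card using Nat.strong_induction_on generalizing f with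
  | _ n ih =>
  by_contra hnk
  rw [← hn] at hnk
  have ih' : ∀ g : G Ω → ℝ, IsSign g → (spec g).card < (spec f).card →
      Kill g (A * ((spec g).card : ℝ) ^ κ) := by
    intro g hg hlt
    exact ih _ (hn ▸ hlt) g hg rfl
  have hκ0 : 0 < κ := by unfold κ; norm_num
  have hκ1 : κ < 1 := by unfold κ; norm_num
  have hAκ : 1 ≤ A * κ := by unfold κ; linarith
  have hsp := spread_of_minimal A κ hκ0 hκ1 hAκ f hf ih' hnk
  have hfl := flat_bound f hf
  have hne : (spec f).Nonempty := by
    apply spec_nonempty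
    intro h0
    have := hf 0
    rw [h0] at this
    simp at this
  set s : ℝ := ((spec f).card : ℝ) with hs
  have hs1 : 1 ≤ s := by
    rw [hs]
    exact_mod_cast hne.card_pos
  have hs0 : 0 < s := by linarith
  set X : ℝ := s ^ ((1 : ℝ) / 20000) with hX
  have hX0 : 0 < X := Real.rpow_pos_of_pos hs0 _
  have hXs : X ^ 20000 = s := by
    rw [hX, ← Real.rpow_natCast, ← Real.rpow_mul hs0.le]
    norm_num
  by_cases hbig : X₁ ≤ X
  · have hX6 : 10 ^ 6 ≤ X := hX₁.trans hbig
    have hX1 : 1 ≤ X := by linarith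
    have hsκ : s ^ κ = X ^ 9998 := by
      rw [← hXs, ← Real.rpow_natCast X 20000, ← Real.rpow_mul hX0.le, ← Real.rpow_natCast X 9998]
      congr 1
      unfold κ
      norm_num
    have hsκ' : s ^ (1 - κ) = X ^ 10002 := by
      rw [← hXs, ← Real.rpow_natCast X 20000, ← Real.rpow_mul hX0.le, ← Real.rpow_natCast X 10002]
      congr 1
      unfold κ
      norm_num
    have hlX := hlog X hbig
    refine core f hf X hX6 (hs ▸ hXs.symm) hlX ?_ ?_
    · refine Spread.mono hsp ?_
      rw [hsκ']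
      exact cpw hX1 (by linarith) (by norm_num)
    · set L : ℝ := ∑ a, |nc f a| with hL
      have h1 : A * s ^ κ < L / 2 * Real.log (s + 1) + 1 := by
        by_contra hcon
        exact hnk (hfl.mono (not_lt.mp hcon))
      have hL0 : 0 ≤ L := Finset.sum_nonneg fun _ _ => abs_nonneg _
      have h2 : Real.log (s + 1) ≤ X := by
        have hlog2 : 0 < Real.log 2 := Real.log_pos (by norm_num)
        have h3 : Real.log (s + 1) ≤ Real.log (2 * s) := Real.log_le_log (by linarith) (by linarith)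
        rw [Real.log_mul (by norm_num) hs0.ne'] at h3
        have h4 : Real.log s = Real.log 2 * Real.logb 2 s := by
          rw [Real.logb]
          field_simp
        rw [hXs] at hlX
        have h5 : Real.log 2 * Real.logb 2 s ≤ Real.log 2 * X :=
          mul_le_mul_of_nonneg_left hlX hlog2.le
        have h6 : Real.log 2 < 0.6931471808 := Real.log_two_lt_d9
        have h7 : Real.log 2 * X ≤ 0.6931471808 * X :=
          mul_le_mul_of_nonneg_right h6.le hX0.le
        linarith
      rw [hsκ] at h1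
      have h3 : 3 * X ^ 9998 ≤ A * X ^ 9998 := mul_le_mul_of_nonneg_right hA3 (by positivity)
      have h4 : L / 2 * Real.log (s + 1) ≤ L / 2 * X := mul_le_mul_of_nonneg_left h2 (by linarith)
      have h5 : (1 : ℝ) ≤ X ^ 9998 := one_le_pow₀ hX1
      have h6 : X ^ 9997 * X ≤ L * X := by
        have h7 : X ^ 9997 * X = X ^ 9998 := by rw [← pow_succ]
        rw [h7]
        linarith
      exact le_of_mul_le_mul_right h6 hX0
  · push Not at hbig
    apply hnk
    refine (kill_card f).mono ?_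
    have h1 : s ≤ A := by
      rw [← hXs]
      exact le_trans (pow_le_pow_left₀ hX0.le hbig.le _) hAX
    have h2 : 1 ≤ s ^ κ := Real.one_le_rpow hs1 hκ0.le
    calc s ≤ A * 1 := by linarith
      _ ≤ A * s ^ κ := mul_le_mul_of_nonneg_left h2 (by linarith)

theorem final : ∃ C : ℝ, ∀ (n : ℕ) (f : G (Fin n) → Bool),
      ∃ P : Protocol (G (Fin n)) (G (Fin n)), (∀ x y, P.eval x y = f (x + y)) ∧
        (P.cost : ℝ) ≤ C * (realRank fun x y : G (Fin n) => f (x + y) : ℝ) ^ κ := by
  obtain ⟨A, hA0, hA⟩ := kill_all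
  exact protocol_of_kill_of exists_restriction nc_restriction κ (by unfold κ; norm_num)
    (by unfold κ; norm_num) A hA0 (fun n f hf => hA f hf)

end Pool.Agent.Lib_helper67.LR
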