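import Pool.Agent.Lib_helper67.LR.Defs
import Pool.Agent.Lib_helper73.LRXSQ

/-!
Case K: counting of the moves, expectation over the random shifts.
-/

set_option autoImplicit false
set_option linter.unusedSectionVars false

namespace Pool.Agent.Lib_helper67.LR

open Finset
open scoped BigOperators

section

variable {A E : Type} [Fintype A] [DecidableEq A] [Fintype E] [DecidableEq E]

/-- number of edges with given `a` and `d` -/
noncomputable def mm (a d : E → A) (α δ : A) : ℝ :=
  ((univ.filter fun e => a e = α ∧ d e = δ).card : ℝ)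

/-- number of edges with given `d` -/
noncomputable def nn (d : E → A) (δ : A) : ℝ := ((univ.filter fun e => d e = δ).card : ℝ)

/-- weight -/
noncomputable def ww (d : E → A) (δ : A) : ℝ := (Fintype.card A : ℝ) / nn d δ

theorem mm_nonneg (a d : E → A) (α δ : A) : 0 ≤ mm a d α δ := Nat.cast_nonneg _

theorem nn_nonneg (d : E → A) (δ : A) : 0 ≤ nn d δ := Nat.cast_nonneg _

theorem ww_nonneg (d : E → A) (δ : A) : 0 ≤ ww d δ :=
  div_nonneg (Nat.cast_nonneg _) (nn_nonneg d δ)

theorem sum_mm (a d : E → A) (δ : A) : ∑ α, mm a d α δ = nn d δ := by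
  unfold mm nn
  rw [← Nat.cast_sum]
  congr 1
  rw [Finset.card_eq_sum_card_fiberwise (f := a) (t := univ) (fun _ _ => Finset.mem_coe.2 (mem_univ _))]
  refine Finset.sum_congr rfl fun α _ => ?_
  congr 1
  ext e
  simp [and_comm]

theorem nn_pos (d : E → A) (e : E) : 0 < nn d (d e) := by
  unfold nn
  exact_mod_cast Finset.card_pos.mpr ⟨e, by simp⟩

theorem ww_mul_nn (d : E → A) (e : E) : ww d (d e) * nn d (d e) = Fintype.card A := by
  unfold ww
  exact div_mul_cancel₀ _ (nn_pos d e).ne'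

/-- grouping a sum over edges by `d` -/
theorem sum_edge (d : E → A) (F : A → ℝ) : ∑ e, F (d e) = ∑ δ, nn d δ * F δ := by
  rw [← Finset.sum_fiberwise (s := univ) (g := d)]
  refine Finset.sum_congr rfl fun δ _ => ?_
  rw [Finset.sum_congr rfl (g := fun _ => F δ) (fun e he => by rw [(Finset.mem_filter.mp he).2])]
  rw [Finset.sum_const, nsmul_eq_mul]
  rfl

theorem sum_ww (d : E → A) : ∑ e, ww d (d e) ≤ (Fintype.card A : ℝ) ^ 2 := by
  rw [sum_edge d (fun δ => ww d δ)]
  calc ∑ δ, nn d δ * ww d δ ≤ ∑ δ : A, (Fintype.card A : ℝ) := by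
        refine Finset.sum_le_sum fun δ _ => ?_
        unfold ww
        by_cases h : nn d δ = 0
        · rw [h]; simp
        · rw [mul_div_cancel₀ _ h]
    _ = (Fintype.card A : ℝ) ^ 2 := by
        rw [Finset.sum_const, nsmul_eq_mul, Finset.card_univ, sq]

theorem sum_mm_sq (a d : E → A) (K : ℝ) (hK : ∀ α δ, mm a d α δ ≤ K) (δ : A) :
    ∑ α, mm a d α δ ^ 2 ≤ K * nn d δ := by
  rw [← sum_mm a d δ, Finset.mul_sum]
  refine Finset.sum_le_sum fun α _ => ?_
  rw [sq]
  exact mul_le_mul_of_nonneg_right (hK α δ) (mm_nonneg a d α δ)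

/-- Cauchy-Schwarz on fibres -/
theorem fiber_sq {I : Type} (t : Finset I) (f : I → ℝ) (ρ : ℝ) (h : (t.card : ℝ) ≤ ρ) :
    (∑ i ∈ t, f i) ^ 2 ≤ ρ * ∑ i ∈ t, f i ^ 2 :=
  le_trans sq_sum_le_card_mul_sum_sq
    (mul_le_mul_of_nonneg_right h (Finset.sum_nonneg fun _ _ => sq_nonneg _))

/-- sum over the fibres of a pair of maps -/
theorem sum_pair_fiber (a π : E → A) (f : E → ℝ) :
    ∑ α, ∑ x, ∑ e with a e = α ∧ π e = x, f e = ∑ e, f e := by
  rw [← Finset.sum_product' univ univ (fun α x => ∑ e with a e = α ∧ π e = x, f e)]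
  rw [← Finset.sum_fiberwise (s := univ) (g := fun e => (a e, π e))]
  refine Finset.sum_congr rfl fun p _ => ?_
  refine Finset.sum_congr ?_ fun _ _ => rfl
  ext e
  simp [Prod.ext_iff]

/-- first type -/
theorem T1 [Nonempty A] (a d π : E → A) (q : ℕ) (ρ K : ℝ) (hρ : 0 ≤ ρ)
    (h1 : ∀ α x, ((univ.filter fun e => a e = α ∧ π e = x).card : ℝ) ≤ ρ)
    (hK : ∀ α δ, mm a d α δ ≤ K) :
    (𝔼 R : Fin q → A, ∑ α, ∑ x, (∑ e with a e = α ∧ π e = x,
      ww d (d e) * ∑ k, mm a d (R k) (d e)) ^ 2) ≤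
      ρ * ((q : ℝ) ^ 2 * Fintype.card E + K * q * (Fintype.card A : ℝ) ^ 2) := by
  have hs : (0 : ℝ) < Fintype.card A := by exact_mod_cast Fintype.card_pos
  have step1 : ∀ R : Fin q → A, ∑ α, ∑ x, (∑ e with a e = α ∧ π e = x,
      ww d (d e) * ∑ k, mm a d (R k) (d e)) ^ 2 ≤
      ρ * ∑ e, (ww d (d e) * ∑ k, mm a d (R k) (d e)) ^ 2 := by
    intro R
    rw [← sum_pair_fiber a π, Finset.mul_sum]
    refine Finset.sum_le_sum fun α _ => ?_
    rw [Finset.mul_sum]
    refine Finset.sum_le_sum fun x _ => ?_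
    exact fiber_sq _ _ ρ (h1 α x)
  refine le_trans (Finset.expect_le_expect fun R _ => step1 R) ?_
  rw [← Finset.mul_expect]
  refine mul_le_mul_of_nonneg_left ?_ hρ
  rw [Finset.expect_sum_comm]
  have step2 : ∀ e : E, (𝔼 R : Fin q → A, (ww d (d e) * ∑ k, mm a d (R k) (d e)) ^ 2) ≤
      (q : ℝ) ^ 2 + K * q * ww d (d e) := by
    intro e
    have h2 : (𝔼 R : Fin q → A, (ww d (d e) * ∑ k, mm a d (R k) (d e)) ^ 2) =
        ww d (d e) ^ 2 * (𝔼 R : Fin q → A, (∑ k, mm a d (R k) (d e)) ^ 2) := by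
      rw [Finset.mul_expect]
      exact Finset.expect_congr rfl fun R _ => by ring
    rw [h2]
    have h3 := sq_one q (fun (_ : Fin q) (r : A) => mm a d r (d e))
    have h4 : (𝔼 r : A, mm a d r (d e)) = nn d (d e) / Fintype.card A := by
      rw [Fintype.expect_eq_sum_div_card, sum_mm]
    have h5 : (𝔼 r : A, mm a d r (d e) ^ 2) ≤ K * nn d (d e) / Fintype.card A := by
      rw [Fintype.expect_eq_sum_div_card]
      exact div_le_div_of_nonneg_right (sum_mm_sq a d K hK (d e)) hs.le
    simp only [Finset.sum_const, Finset.card_univ, Fintype.card_fin, nsmul_eq_mul] at h3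
    rw [h4] at h3
    have h6 : (𝔼 R : Fin q → A, (∑ k, mm a d (R k) (d e)) ^ 2) ≤
        q * (K * nn d (d e) / Fintype.card A) + (q * (nn d (d e) / Fintype.card A)) ^ 2 :=
      le_trans h3 (by
        have := mul_le_mul_of_nonneg_left h5 (Nat.cast_nonneg (α := ℝ) q)
        linarith)
    refine le_trans (mul_le_mul_of_nonneg_left h6 (sq_nonneg _)) (le_of_eq ?_)
    have hn := (nn_pos d e).ne'
    unfold ww
    field_simp
    ring
  refine le_trans (Finset.sum_le_sum fun e _ => step2 e) ?_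
  rw [Finset.sum_add_distrib, Finset.sum_const, ← Finset.mul_sum, Finset.card_univ, nsmul_eq_mul]
  rcases Nat.eq_zero_or_pos (Fintype.card E) with hE | hE
  · have : IsEmpty E := Fintype.card_eq_zero_iff.mp hE
    have hK0 : 0 ≤ K := le_trans (mm_nonneg a d _ _) (hK (Classical.arbitrary A) (Classical.arbitrary A))
    simp only [Finset.univ_eq_empty, Finset.sum_empty, mul_zero, hE, Nat.cast_zero, zero_mul, add_zero, zero_add]
    positivity
  · have hK0 : 0 ≤ K := le_trans (mm_nonneg a d _ _) (hK (Classical.arbitrary A) (Classical.arbitrary A))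
    have := mul_le_mul_of_nonneg_left (sum_ww d) (show 0 ≤ K * q by positivity)
    nlinarith [this]

/-- second type -/
theorem T2 [Nonempty A] (a d π : E → A) (q : ℕ) (ρ ρ' K Ω : ℝ) (hρ : 0 ≤ ρ) (hρ' : 0 ≤ ρ')
    (hΩ0 : 0 ≤ Ω)
    (h1 : ∀ α x, ((univ.filter fun e => a e = α ∧ π e = x).card : ℝ) ≤ ρ)
    (h2 : ∀ x δ, ((univ.filter fun e => π e = x ∧ d e = δ).card : ℝ) ≤ ρ')
    (hK : ∀ α δ, mm a d α δ ≤ K) (hΩ : ∀ e, ww d (d e) ≤ Ω)
    (hA : ∀ α, ((univ.filter fun e => a e = α).card : ℝ) ≤ Fintype.card A) :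
    (𝔼 R : Fin q → A, ∑ α, ∑ x, (∑ k, ∑ e with a e = R k ∧ π e = x,
      ww d (d e) * mm a d α (d e)) ^ 2) ≤
      ρ * K * q * (Fintype.card A : ℝ) ^ 2 + (q : ℝ) ^ 2 * Ω * ρ' * Fintype.card E := by
  have hs : (0 : ℝ) < Fintype.card A := by exact_mod_cast Fintype.card_pos
  have hK0 : 0 ≤ K :=
    le_trans (mm_nonneg a d _ _) (hK (Classical.arbitrary A) (Classical.arbitrary A))
  set s : ℝ := (Fintype.card A : ℝ) with hsdef
  rw [Finset.expect_sum_comm]
  simp only [Finset.expect_sum_comm]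
  have step : ∀ α x : A, (𝔼 R : Fin q → A, (∑ k, ∑ e with a e = R k ∧ π e = x,
      ww d (d e) * mm a d α (d e)) ^ 2) ≤
      q * (ρ / s * ∑ r, ∑ e with a e = r ∧ π e = x, (ww d (d e) * mm a d α (d e)) ^ 2) +
        (q / s * ∑ e with π e = x, ww d (d e) * mm a d α (d e)) ^ 2 := by
    intro α x
    have h3 := sq_one q (fun (_ : Fin q) (r : A) => ∑ e with a e = r ∧ π e = x,
      ww d (d e) * mm a d α (d e))
    simp only [Finset.sum_const, Finset.card_univ, Fintype.card_fin, nsmul_eq_mul] at h3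
    refine le_trans h3 (add_le_add ?_ (le_of_eq ?_))
    · refine mul_le_mul_of_nonneg_left ?_ (Nat.cast_nonneg _)
      rw [Fintype.expect_eq_sum_div_card, div_mul_eq_mul_div]
      refine div_le_div_of_nonneg_right ?_ hs.le
      rw [Finset.mul_sum]
      exact Finset.sum_le_sum fun r _ => fiber_sq _ _ ρ (h1 r x)
    · congr 1
      rw [Fintype.expect_eq_sum_div_card]
      have h4 : ∑ r, ∑ e with a e = r ∧ π e = x, ww d (d e) * mm a d α (d e) =
          ∑ e with π e = x, ww d (d e) * mm a d α (d e) := by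
        rw [← Finset.sum_fiberwise (s := univ.filter fun e => π e = x) (g := a)]
        refine Finset.sum_congr rfl fun r _ => Finset.sum_congr ?_ fun _ _ => rfl
        ext e
        simp [and_comm]
      rw [h4]
      ring
  refine le_trans (Finset.sum_le_sum fun α _ => Finset.sum_le_sum fun x _ => step α x) ?_
  simp only [Finset.sum_add_distrib]
  refine add_le_add ?_ ?_
  · simp only [← Finset.mul_sum]
    have h5 : ∑ α, ∑ x, ∑ r, ∑ e with a e = r ∧ π e = x, (ww d (d e) * mm a d α (d e)) ^ 2 ≤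
        K * s * s ^ 2 := by
      have h6 : ∀ α, ∑ x, ∑ r, ∑ e with a e = r ∧ π e = x, (ww d (d e) * mm a d α (d e)) ^ 2 =
          ∑ e, (ww d (d e) * mm a d α (d e)) ^ 2 := by
        intro α
        rw [Finset.sum_comm]
        exact sum_pair_fiber a π _
      rw [Finset.sum_congr rfl fun α _ => h6 α, Finset.sum_comm]
      calc ∑ e, ∑ α, (ww d (d e) * mm a d α (d e)) ^ 2
          ≤ ∑ e, K * s * ww d (d e) := by
            refine Finset.sum_le_sum fun e _ => ?_
            simp only [mul_pow]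
            rw [← Finset.mul_sum]
            refine le_trans (mul_le_mul_of_nonneg_left (sum_mm_sq a d K hK (d e)) (sq_nonneg _))
              (le_of_eq ?_)
            have := ww_mul_nn d e
            rw [← hsdef] at this
            calc ww d (d e) ^ 2 * (K * nn d (d e)) = K * (ww d (d e) * nn d (d e)) * ww d (d e) := by
                  ring
              _ = _ := by rw [this]
        _ = K * s * ∑ e, ww d (d e) := by rw [Finset.mul_sum]
        _ ≤ K * s * s ^ 2 := mul_le_mul_of_nonneg_left (sum_ww d) (by positivity)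
    calc (q : ℝ) * (ρ / s * ∑ α, ∑ x, ∑ r, ∑ e with a e = r ∧ π e = x,
          (ww d (d e) * mm a d α (d e)) ^ 2) ≤ q * (ρ / s * (K * s * s ^ 2)) := by gcongr
      _ = ρ * K * q * s ^ 2 := by field_simp
  · have h7 : ∀ α x : A, ∑ e with π e = x, ww d (d e) * mm a d α (d e) ≤ Ω * ρ' * s := by
      intro α x
      calc ∑ e with π e = x, ww d (d e) * mm a d α (d e)
          ≤ ∑ e with π e = x, Ω * mm a d α (d e) :=
            Finset.sum_le_sum fun e _ => mul_le_mul_of_nonneg_right (hΩ e) (mm_nonneg _ _ _ _)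
        _ = Ω * ∑ e with π e = x, mm a d α (d e) := by rw [Finset.mul_sum]
        _ ≤ Ω * (ρ' * s) := by
            refine mul_le_mul_of_nonneg_left ?_ hΩ0
            rw [← Finset.sum_fiberwise (s := univ.filter fun e => π e = x) (g := d)]
            calc ∑ δ, ∑ e ∈ (univ.filter fun e => π e = x) with d e = δ, mm a d α (d e)
                ≤ ∑ δ, ρ' * mm a d α δ := by
                  refine Finset.sum_le_sum fun δ _ => ?_
                  rw [Finset.sum_congr rfl (g := fun _ => mm a d α δ)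
                    (fun e he => by rw [(Finset.mem_filter.mp he).2])]
                  rw [Finset.sum_const, nsmul_eq_mul, Finset.filter_filter]
                  exact mul_le_mul_of_nonneg_right (h2 x δ) (mm_nonneg _ _ _ _)
              _ = ρ' * ∑ δ, mm a d α δ := by rw [Finset.mul_sum]
              _ ≤ ρ' * s := by
                  refine mul_le_mul_of_nonneg_left ?_ hρ'
                  refine le_trans (le_of_eq ?_) (hA α)
                  unfold mm
                  rw [← Nat.cast_sum]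
                  congr 1
                  rw [Finset.card_eq_sum_card_fiberwise (f := d) (t := univ)
                    (fun _ _ => Finset.mem_coe.2 (mem_univ _))]
                  refine Finset.sum_congr rfl fun δ _ => ?_
                  congr 1
                  ext e
                  simp
        _ = Ω * ρ' * s := by ring
    have h8 : ∀ α x : A, (q / s * ∑ e with π e = x, ww d (d e) * mm a d α (d e)) ^ 2 ≤
        (q : ℝ) ^ 2 * Ω * ρ' / s * ∑ e with π e = x, ww d (d e) * mm a d α (d e) := by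
      intro α x
      have h9 : 0 ≤ ∑ e with π e = x, ww d (d e) * mm a d α (d e) :=
        Finset.sum_nonneg fun e _ => mul_nonneg (ww_nonneg _ _) (mm_nonneg _ _ _ _)
      have h10 := mul_le_mul_of_nonneg_right (h7 α x) h9
      calc (q / s * ∑ e with π e = x, ww d (d e) * mm a d α (d e)) ^ 2
          = (q : ℝ) ^ 2 / s ^ 2 * ((∑ e with π e = x, ww d (d e) * mm a d α (d e)) *
            (∑ e with π e = x, ww d (d e) * mm a d α (d e))) := by ring
        _ ≤ (q : ℝ) ^ 2 / s ^ 2 * (Ω * ρ' * s *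
            (∑ e with π e = x, ww d (d e) * mm a d α (d e))) :=
            mul_le_mul_of_nonneg_left h10 (by positivity)
        _ = _ := by field_simp
    refine le_trans (Finset.sum_le_sum fun α _ => Finset.sum_le_sum fun x _ => h8 α x) ?_
    simp only [← Finset.mul_sum]
    have h11 : ∑ α, ∑ x, ∑ e with π e = x, ww d (d e) * mm a d α (d e) = s * Fintype.card E := by
      have h12 : ∀ α, ∑ x, ∑ e with π e = x, ww d (d e) * mm a d α (d e) =
          ∑ e, ww d (d e) * mm a d α (d e) := fun α => Finset.sum_fiberwise _ _ _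
      rw [Finset.sum_congr rfl fun α _ => h12 α, Finset.sum_comm]
      have h13 : ∀ e : E, ∑ α, ww d (d e) * mm a d α (d e) = s := by
        intro e
        rw [← Finset.mul_sum, sum_mm]
        exact ww_mul_nn d e
      rw [Finset.sum_congr rfl fun e _ => h13 e, Finset.sum_const, nsmul_eq_mul, Finset.card_univ]
      ring
    rw [h11]
    apply le_of_eq
    field_simp

/-- third type -/
theorem T3 [Nonempty A] (a d π : E → A) (q : ℕ) (ρ ρ' : ℝ) (hρ : 0 ≤ ρ) (hρ' : 0 ≤ ρ')
    (h1 : ∀ α x, ((univ.filter fun e => a e = α ∧ π e = x).card : ℝ) ≤ ρ)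
    (h2 : ∀ x δ, ((univ.filter fun e => π e = x ∧ d e = δ).card : ℝ) ≤ ρ')
    (h3 : ∀ r x δ, (univ.filter fun e => a e = r ∧ π e = x ∧ d e = δ).card ≤ 1) :
    (𝔼 R : Fin q → A, ∑ α, ∑ x, ∑ y, (∑ e with a e = α ∧ π e = x,
      ww d (d e) * ∑ k, ((univ.filter fun e' => a e' = R k ∧ π e' = y ∧ d e' = d e).card : ℝ)) ^ 2) ≤
      ρ * q * (Fintype.card A : ℝ) ^ 2 * (1 + q * ρ' / Fintype.card A) := by
  have hs : (0 : ℝ) < Fintype.card A := by exact_mod_cast Fintype.card_pos
  set s : ℝ := (Fintype.card A : ℝ) with hsdef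
  have step1 : ∀ R : Fin q → A, ∑ α, ∑ x, ∑ y, (∑ e with a e = α ∧ π e = x,
      ww d (d e) * ∑ k, ((univ.filter fun e' => a e' = R k ∧ π e' = y ∧ d e' = d e).card : ℝ)) ^ 2 ≤
      ρ * ∑ e, ∑ y, (ww d (d e) *
        ∑ k, ((univ.filter fun e' => a e' = R k ∧ π e' = y ∧ d e' = d e).card : ℝ)) ^ 2 := by
    intro R
    rw [← sum_pair_fiber a π, Finset.mul_sum]
    refine Finset.sum_le_sum fun α _ => ?_
    rw [Finset.mul_sum]
    refine Finset.sum_le_sum fun x _ => ?_
    rw [Finset.sum_comm (s := univ.filter fun e => a e = α ∧ π e = x), Finset.mul_sum]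
    exact Finset.sum_le_sum fun y _ => fiber_sq _ _ ρ (h1 α x)
  refine le_trans (Finset.expect_le_expect fun R _ => step1 R) ?_
  rw [← Finset.mul_expect]
  rw [show ρ * q * s ^ 2 * (1 + q * ρ' / s) = ρ * (q * s ^ 2 * (1 + q * ρ' / s)) by ring]
  refine mul_le_mul_of_nonneg_left ?_ hρ
  rw [Finset.expect_sum_comm]
  simp only [Finset.expect_sum_comm]
  have step2 : ∀ (e : E) (y : A), (𝔼 R : Fin q → A, (ww d (d e) *
        ∑ k, ((univ.filter fun e' => a e' = R k ∧ π e' = y ∧ d e' = d e).card : ℝ)) ^ 2) ≤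
      ww d (d e) ^ 2 * (q / s * (1 + q * ρ' / s) *
        ((univ.filter fun e' => π e' = y ∧ d e' = d e).card : ℝ)) := by
    intro e y
    have h4 : (𝔼 R : Fin q → A, (ww d (d e) *
        ∑ k, ((univ.filter fun e' => a e' = R k ∧ π e' = y ∧ d e' = d e).card : ℝ)) ^ 2) =
        ww d (d e) ^ 2 * (𝔼 R : Fin q → A,
        (∑ k, ((univ.filter fun e' => a e' = R k ∧ π e' = y ∧ d e' = d e).card : ℝ)) ^ 2) := by
      rw [Finset.mul_expect]
      exact Finset.expect_congr rfl fun R _ => by ring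
    rw [h4]
    refine mul_le_mul_of_nonneg_left ?_ (sq_nonneg _)
    set c : ℝ := ((univ.filter fun e' => π e' = y ∧ d e' = d e).card : ℝ) with hc
    have hc0 : 0 ≤ c := Nat.cast_nonneg _
    have h5 := sq_one q (fun (_ : Fin q) (r : A) =>
      ((univ.filter fun e' => a e' = r ∧ π e' = y ∧ d e' = d e).card : ℝ))
    simp only [Finset.sum_const, Finset.card_univ, Fintype.card_fin, nsmul_eq_mul] at h5
    have h6 : ∑ r : A, ((univ.filter fun e' => a e' = r ∧ π e' = y ∧ d e' = d e).card : ℝ) = c := by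
      rw [hc, ← Nat.cast_sum]
      congr 1
      rw [Finset.card_eq_sum_card_fiberwise (f := a) (t := univ)
        (fun _ _ => Finset.mem_coe.2 (mem_univ _))]
      refine Finset.sum_congr rfl fun r _ => ?_
      congr 1
      ext e
      simp [and_comm]
    have h7 : (𝔼 r : A, ((univ.filter fun e' => a e' = r ∧ π e' = y ∧ d e' = d e).card : ℝ)) =
        c / s := by
      rw [Fintype.expect_eq_sum_div_card, h6]
    have h8 : (𝔼 r : A, ((univ.filter fun e' => a e' = r ∧ π e' = y ∧ d e' = d e).card : ℝ) ^ 2) ≤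
        c / s := by
      rw [← h7]
      refine Finset.expect_le_expect fun r _ => ?_
      have h9 : ((univ.filter fun e' => a e' = r ∧ π e' = y ∧ d e' = d e).card : ℝ) ≤ 1 := by
        exact_mod_cast h3 r y (d e)
      have h10 : (0 : ℝ) ≤ ((univ.filter fun e' => a e' = r ∧ π e' = y ∧ d e' = d e).card : ℝ) :=
        Nat.cast_nonneg _
      nlinarith
    rw [h7] at h5
    refine le_trans h5 ?_
    have h11 : c * c ≤ ρ' * c := mul_le_mul_of_nonneg_right (h2 y (d e)) hc0
    have h12 : (q * (c / s)) ^ 2 ≤ q ^ 2 * ρ' * c / s ^ 2 := by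
      rw [mul_pow, div_pow, mul_div_assoc']
      refine div_le_div_of_nonneg_right ?_ (by positivity)
      have := mul_le_mul_of_nonneg_left h11 (show (0 : ℝ) ≤ (q : ℝ) ^ 2 by positivity)
      nlinarith
    have h13 := mul_le_mul_of_nonneg_left h8 (Nat.cast_nonneg (α := ℝ) q)
    calc _ ≤ q * (c / s) + q ^ 2 * ρ' * c / s ^ 2 := add_le_add h13 h12
      _ = q / s * (1 + q * ρ' / s) * c := by field_simp
  refine le_trans (Finset.sum_le_sum fun e _ => Finset.sum_le_sum fun y _ => step2 e y) ?_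
  simp only [← Finset.mul_sum]
  have h14 : ∀ e : E, ∑ y : A, ((univ.filter fun e' => π e' = y ∧ d e' = d e).card : ℝ) =
      nn d (d e) := by
    intro e
    unfold nn
    rw [← Nat.cast_sum]
    congr 1
    rw [Finset.card_eq_sum_card_fiberwise (f := π) (t := univ)
      (fun _ _ => Finset.mem_coe.2 (mem_univ _))]
    refine Finset.sum_congr rfl fun r _ => ?_
    congr 1
    ext e
    simp [and_comm]
  have h15 : ∀ e : E, ww d (d e) ^ 2 * (q / s * (1 + q * ρ' / s) *
      ∑ y : A, ((univ.filter fun e' => π e' = y ∧ d e' = d e).card : ℝ)) =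
      q * (1 + q * ρ' / s) * ww d (d e) := by
    intro e
    rw [h14 e]
    have := ww_mul_nn d e
    rw [← hsdef] at this
    calc _ = q / s * (1 + q * ρ' / s) * (ww d (d e) * nn d (d e)) * ww d (d e) := by ring
      _ = _ := by rw [this]; field_simp
  rw [Finset.sum_congr rfl fun e _ => h15 e, ← Finset.mul_sum]
  calc q * (1 + q * ρ' / s) * ∑ e, ww d (d e) ≤ q * (1 + q * ρ' / s) * s ^ 2 :=
        mul_le_mul_of_nonneg_left (sum_ww d) (by positivity)
    _ = _ := by ring

end

end Pool.Agent.Lib_helper67.LR
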