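import Pool.Agent.Lib_helper67.LR.KMoves
import Pool.Agent.Lib_helper98.LRXMV
import Pool.Agent.Lib_helper36.LRXISO

/-!
Case K: the contradiction.
-/

set_option autoImplicit false
set_option linter.unusedSectionVars false

namespace Pool.Agent.Lib_helper67.LR

open Finset
open scoped BigOperators

/-- Colours that are independent modulo a subspace. -/
theorem exists_indep_colours {V : Type} [AddCommGroup V] [Module (ZMod 2) V] [DecidableEq V]
    (R : Finset V) (G : Finset V) :
    ∃ (L : Finset V) (g : V →ₗ[ZMod 2] (L → ZMod 2)), L ⊆ G ∧ (∀ r ∈ R, g r = 0) ∧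
      (∀ l : L, g l = Pi.single l 1) ∧
      (∀ α ∈ G, α ∈ Submodule.span (ZMod 2) ((R ∪ L : Finset V) : Set V)) := by
  classical
  set U := Submodule.span (ZMod 2) (R : Set V) with hU
  obtain ⟨b, hbt, hspan, hli⟩ := exists_linearIndependent (ZMod 2) ((U.mkQ) '' (G : Set V))
  have hbfin : b.Finite := ((G.finite_toSet).image _).subset hbt
  have hch : ∀ x : b, ∃ v ∈ G, U.mkQ v = x := by
    intro x
    obtain ⟨v, hv, hvx⟩ := hbt x.2
    exact ⟨v, hv, hvx⟩
  choose lift hliftG hlift using hch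
  have : Fintype b := hbfin.fintype
  have hinj : Function.Injective lift := by
    intro x y h
    apply Subtype.ext
    rw [← hlift x, ← hlift y, h]
  set L : Finset V := univ.image lift with hL
  have hLmem : ∀ l : L, ∃ x : b, lift x = l := by
    intro l
    obtain ⟨x, _, hx⟩ := Finset.mem_image.mp l.2
    exact ⟨x, hx⟩
  -- the family indexed by `L` in the quotient
  have hli2 : LinearIndependent (ZMod 2) (fun l : L => U.mkQ (l : V)) := by
    choose pre hpre using hLmem
    have hpinj : Function.Injective pre := by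
      intro l l' h
      apply Subtype.ext
      rw [← hpre l, ← hpre l', h]
    have h1 := hli.comp pre hpinj
    have h2 : (fun l : L => U.mkQ (l : V)) = Subtype.val ∘ pre := by
      funext l
      simp only [Function.comp]
      rw [← hpre l, hlift]
    rw [h2]
    exact h1
  have hker := linearIndependent_iff_ker.mp hli2
  obtain ⟨h, hh⟩ := LinearMap.exists_leftInverse_of_injective _ hker
  refine ⟨L, (Finsupp.linearEquivFunOnFinite (ZMod 2) (ZMod 2) L).toLinearMap ∘ₗ h ∘ₗ U.mkQ, ?_, ?_,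
    ?_, ?_⟩
  · intro v hv
    rw [hL, Finset.mem_image] at hv
    obtain ⟨x, _, rfl⟩ := hv
    exact hliftG x
  · intro r hr
    have : U.mkQ r = 0 := by
      rw [Submodule.mkQ_apply, Submodule.Quotient.mk_eq_zero]
      exact Submodule.subset_span hr
    simp [LinearMap.comp_apply, this]
  · intro l
    have h1 := LinearMap.congr_fun hh (Finsupp.single l 1)
    simp only [LinearMap.comp_apply, Finsupp.linearCombination_single, one_smul,
      LinearMap.id_coe, id_eq] at h1
    simp only [LinearMap.comp_apply, LinearEquiv.coe_coe, h1]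
    funext l'
    by_cases hl : l' = l
    · subst hl; simp
    · simp [hl]
  · intro α hα
    have h1 : U.mkQ α ∈ Submodule.span (ZMod 2) b := by
      rw [hspan]
      exact Submodule.subset_span ⟨α, hα, rfl⟩
    have h2 : b ⊆ U.mkQ '' (L : Set V) := by
      intro x hx
      exact ⟨lift ⟨x, hx⟩, by rw [hL]; exact Finset.mem_coe.2 (Finset.mem_image_of_mem _ (mem_univ _)),
        hlift ⟨x, hx⟩⟩
    have h3 := Submodule.span_mono (R := ZMod 2) h2 h1
    rw [← Submodule.map_span] at h3
    obtain ⟨v, hv, hvα⟩ := h3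
    have h4 : α - v ∈ U := by
      rw [← Submodule.Quotient.eq]
      exact hvα.symm
    have h5 : α = (α - v) + v := by abel
    rw [h5]
    refine Submodule.add_mem _ ?_ ?_
    · exact Submodule.span_mono (by simp) h4
    · exact Submodule.span_mono (by simp) hv

/-- replacing a coordinate -/
theorem sum_update_add {V : Type} [AddCommGroup V] [Module (ZMod 2) V]
    {S : Finset V} {τ : ℕ} (u : Fin τ → {x // x ∈ S}) (i : Fin τ) (v : {x // x ∈ S}) :
    (∑ i', (u i' : V)) + ∑ i', ((Function.update u i v) i' : V) = u i + v := by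
  rw [← Finset.sum_add_distrib, Finset.sum_eq_single i]
  · simp
  · intro j _ hj
    rw [Function.update_of_ne hj]
    exact ZModModule.add_self _
  · intro h
    exact absurd (mem_univ _) h

open Classical in
theorem caseK {V : Type} [AddCommGroup V] [Module (ZMod 2) V] [DecidableEq V]
    {S : Finset V} {E : Type} [Fintype E] (a b c d : E → {x // x ∈ S})
    (hSne : S.Nonempty) (hrel : ∀ e, (a e : V) + b e = c e + d e)
    (hinj : ∀ e e', a e = a e' → b e = b e' → e = e')
    (s Ω ρ₀ ρ₁ K P : ℝ) (hs : s = S.card) (hP : P = Fintype.card E) (hP0 : 0 < P)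
    (hρ₀ : 0 ≤ ρ₀) (hρ₁ : 0 ≤ ρ₁) (hΩ0 : 0 ≤ Ω) (hK0 : 0 ≤ K)
    (D1 : ∀ α x, ((univ.filter fun e => a e = α ∧ c e = x).card : ℝ) ≤ ρ₁)
    (D2 : ∀ x δ, ((univ.filter fun e => b e = x ∧ d e = δ).card : ℝ) ≤ ρ₁)
    (D3 : ∀ x δ, ((univ.filter fun e => c e = x ∧ d e = δ).card : ℝ) ≤ ρ₀)
    (D6 : ∀ α δ, ((univ.filter fun e => a e = α ∧ d e = δ).card : ℝ) ≤ K)
    (D5 : ∀ (T : Finset V) (δ : {x // x ∈ S}),
      ((univ.filter fun e => (a e : V) ∈ Submodule.span (ZMod 2) (T : Set V) ∧ d e = δ).card : ℝ) ≤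
        K * ρ₀ * (T.card + 1))
    (hn : ∀ e, s ≤ Ω * ((univ.filter fun e' => d e' = d e).card : ℝ))
    (q τ : ℕ) (hq : 0 < q) (hτ : 0 < τ)
    (N1 : (1 + ρ₁) * ((q : ℝ) ^ 2 * P + K * q * s ^ 2) +
      (K * q * s ^ 2 + (q : ℝ) ^ 2 * Ω * ρ₁ * P) +
      (K * ρ₁ * q * s ^ 2 + (q : ℝ) ^ 2 * Ω * ρ₀ * P) ≤ τ * (q : ℝ) ^ 2 * P ^ 2 / (64 * s ^ 2))
    (N2 : q * s ^ 2 * (1 + q * ρ₁ / s) + ρ₁ * q * s ^ 2 * (1 + q * ρ₀ / s) ≤
      (τ : ℝ) ^ 2 * (q : ℝ) ^ 2 * P ^ 2 / (64 * s ^ 3))
    (N3 : Ω * (q * s) * (K * ρ₀ * (2 * q + 1)) < q * P / 2)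
    (N4 : 6 * τ * Real.logb 2 s < q) : False := by
  have hcard : (Fintype.card {x // x ∈ S} : ℝ) = s := by rw [hs, Fintype.card_coe]
  have hne : Nonempty {x // x ∈ S} := ⟨⟨_, hSne.choose_spec⟩⟩
  have hs0 : 0 < s := by rw [hs]; exact_mod_cast hSne.card_pos
  have hqR : (0 : ℝ) < q := by exact_mod_cast hq
  have hτR : (0 : ℝ) < τ := by exact_mod_cast hτ
  have hab : ∀ α x, (univ.filter fun e => a e = α ∧ b e = x).card ≤ 1 := by
    intro α x
    rw [Finset.card_le_one]
    intro e he e' he'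
    rw [Finset.mem_filter] at he he'
    exact hinj e e' (he.2.1.trans he'.2.1.symm) (he.2.2.trans he'.2.2.symm)
  have hacd : ∀ r x δ, (univ.filter fun e => a e = r ∧ c e = x ∧ d e = δ).card ≤ 1 := by
    intro r x δ
    rw [Finset.card_le_one]
    intro e he e' he'
    rw [Finset.mem_filter] at he he'
    refine hinj e e' (he.2.1.trans he'.2.1.symm) ?_
    apply Subtype.ext
    have h1 := hrel e
    have h2 := hrel e'
    rw [he.2.1, he.2.2.1, he.2.2.2] at h1
    rw [he'.2.1, he'.2.2.1, he'.2.2.2] at h2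
    exact add_left_cancel (h1.trans h2.symm)
  have hA : ∀ α, ((univ.filter fun e => a e = α).card : ℝ) ≤ Fintype.card {x // x ∈ S} := by
    intro α
    have : (univ.filter fun e => a e = α).card ≤ (univ : Finset {x // x ∈ S}).card := by
      refine Finset.card_le_card_of_injOn b (fun _ _ => mem_univ _) ?_
      intro e he e' he' h
      rw [Finset.mem_coe, Finset.mem_filter] at he he'
      exact hinj e e' (he.2.trans he'.2.symm) h
    exact_mod_cast this
  have hΩ : ∀ e, ww d (d e) ≤ Ω := by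
    intro e
    unfold ww
    rw [div_le_iff₀ (nn_pos d e), hcard]
    have := hn e
    unfold nn
    convert this
  have eS2 := expect_S2 a b c d q ρ₀ ρ₁ K Ω hρ₀ hρ₁ hΩ0 hab D1 D2 D3 D6 hΩ hA
  have eS3 := expect_S3 a b c d q ρ₀ ρ₁ hρ₀ hρ₁ hab hacd D1 D2 D3
  have eJ := expect_JJ a d q
  rw [hcard, ← hP] at eS2
  rw [hcard] at eS3
  rw [← hP] at eJ
  have eS2' := le_trans eS2 N1
  have eS3' := le_trans eS3 N2
  have hW := fun (R : Fin q → {x // x ∈ S}) (α : {x // x ∈ S}) =>
    move_graph (fun m : E × Fin q × E => b m.1) (fun m => b m.2.2) (fun m => c m.1)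
      (fun m => c m.2.2) (om a d R α) (om_nonneg a d R α) τ
  choose W hW0 hWsupp hWmean hWsq using hW
  rw [hcard] at hWmean hWsq
  -- the good colours
  set μ : (Fin q → {x // x ∈ S}) → {x // x ∈ S} → ℝ := fun R α =>
    (τ : ℝ) ^ 2 * JJ a d R α / s ^ 2 with hμ
  set Bd : (Fin q → {x // x ∈ S}) → {x // x ∈ S} → ℝ := fun R α =>
    4 * μ R α ^ 2 + 2 * (τ : ℝ) ^ 3 / s ^ 3 * S2 a b c d R α +
      2 * (τ : ℝ) ^ 2 / s ^ 2 * S3 a b c d R α with hBd
  set Good : (Fin q → {x // x ∈ S}) → Finset {x // x ∈ S} := fun R =>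
    univ.filter fun α => q * P / (4 * s) ≤ JJ a d R α ∧ Bd R α ≤ 6 * μ R α ^ 2 with hGood
  have hJ0 : ∀ (R : Fin q → {x // x ∈ S}) (α : {x // x ∈ S}), 0 ≤ JJ a d R α := by
    intro R α
    unfold JJ
    exact Finset.sum_nonneg fun m _ => om_nonneg a d R α m
  have hc2 : 0 ≤ 4 * s ^ 2 / (τ * q * P) := by positivity
  have hc3 : 0 ≤ 4 * s ^ 3 / ((τ : ℝ) ^ 2 * q * P) := by positivity
  have stepA1 : ∀ R α, JJ a d R α ≤ (if α ∈ Good R then JJ a d R α else 0) + q * P / (4 * s) +
      4 * s ^ 2 / (τ * q * P) * S2 a b c d R α +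
      4 * s ^ 3 / ((τ : ℝ) ^ 2 * q * P) * S3 a b c d R α := by
    intro R α
    have h2 := mul_nonneg hc2 (S2_nonneg a b c d R α)
    have h3 := mul_nonneg hc3 (S3_nonneg a b c d R α)
    have h4 : 0 ≤ q * P / (4 * s) := by positivity
    by_cases hg : α ∈ Good R
    · rw [if_pos hg]; linarith
    · rw [if_neg hg]
      by_cases h5 : q * P / (4 * s) ≤ JJ a d R α
      · have h6 : 6 * μ R α ^ 2 < Bd R α := by
          by_contra hcon
          push Not at hcon
          apply hg
          simp only [hGood, Finset.mem_filter, Finset.mem_univ, true_and]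
          exact ⟨h5, hcon⟩
        simp only [hBd, hμ] at h6
        set J := JJ a d R α with hJ
        set x := S2 a b c d R α with hx
        set y := S3 a b c d R α with hy
        have h7 : J ^ 2 < s / τ * x + s ^ 2 / (τ : ℝ) ^ 2 * y := by
          have h8 : 2 * ((τ : ℝ) ^ 2 * J / s ^ 2) ^ 2 <
              2 * (τ : ℝ) ^ 3 / s ^ 3 * x + 2 * (τ : ℝ) ^ 2 / s ^ 2 * y := by linarith
          have h9 : 0 < s ^ 4 / (2 * (τ : ℝ) ^ 4) := by positivity
          have h10 := mul_lt_mul_of_pos_left h8 h9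
          have e1 : s ^ 4 / (2 * (τ : ℝ) ^ 4) * (2 * ((τ : ℝ) ^ 2 * J / s ^ 2) ^ 2) = J ^ 2 := by
            field_simp
          have e2 : s ^ 4 / (2 * (τ : ℝ) ^ 4) * (2 * (τ : ℝ) ^ 3 / s ^ 3 * x +
              2 * (τ : ℝ) ^ 2 / s ^ 2 * y) = s / τ * x + s ^ 2 / (τ : ℝ) ^ 2 * y := by
            field_simp
          rw [e1, e2] at h10
          exact h10
        have h11 : q * P / (4 * s) * J ≤ J ^ 2 := by
          rw [sq]
          exact mul_le_mul_of_nonneg_right h5 (hJ0 R α)
        have h12 : q * P / (4 * s) * J < s / τ * x + s ^ 2 / (τ : ℝ) ^ 2 * y := lt_of_le_of_lt h11 h7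
        have h13 : 0 < 4 * s / (q * P) := by positivity
        have h14 := mul_lt_mul_of_pos_left h12 h13
        have e3 : 4 * s / (q * P) * (q * P / (4 * s) * J) = J := by field_simp
        have e4 : 4 * s / (q * P) * (s / τ * x + s ^ 2 / (τ : ℝ) ^ 2 * y) =
            4 * s ^ 2 / (τ * q * P) * x + 4 * s ^ 3 / ((τ : ℝ) ^ 2 * q * P) * y := by
          field_simp
        rw [e3, e4] at h14
        linarith
      · push Not at h5
        linarith
  have stepA : ∀ R, ∑ α, JJ a d R α ≤ ∑ α ∈ Good R, JJ a d R α + q * P / 4 +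
      4 * s ^ 2 / (τ * q * P) * ∑ α, S2 a b c d R α +
      4 * s ^ 3 / ((τ : ℝ) ^ 2 * q * P) * ∑ α, S3 a b c d R α := by
    intro R
    refine le_trans (Finset.sum_le_sum fun α _ => stepA1 R α) (le_of_eq ?_)
    rw [Finset.sum_add_distrib, Finset.sum_add_distrib, Finset.sum_add_distrib, ← Finset.mul_sum,
      ← Finset.mul_sum, Finset.sum_ite_mem, Finset.univ_inter, Finset.sum_const, nsmul_eq_mul,
      Finset.card_univ, hcard]
    congr 3
    field_simp
  -- a good choice of `R`
  obtain ⟨R, hR⟩ : ∃ R : Fin q → {x // x ∈ S}, q * P / 2 ≤ ∑ α ∈ Good R, JJ a d R α := by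
    by_contra hcon
    push Not at hcon
    have h1 : (𝔼 R : Fin q → {x // x ∈ S}, ∑ α, JJ a d R α) ≤
        𝔼 R : Fin q → {x // x ∈ S}, (q * P / 2 + q * P / 4 +
          4 * s ^ 2 / (τ * q * P) * ∑ α, S2 a b c d R α +
          4 * s ^ 3 / ((τ : ℝ) ^ 2 * q * P) * ∑ α, S3 a b c d R α) :=
      Finset.expect_le_expect fun R _ => by
        have := stepA R
        have := (hcon R).le
        linarith
    rw [eJ, Finset.expect_add_distrib, Finset.expect_add_distrib, ← Finset.mul_expect,
      ← Finset.mul_expect, Fintype.expect_const] at h1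
    have h2 := mul_le_mul_of_nonneg_left eS2' hc2
    have h3 := mul_le_mul_of_nonneg_left eS3' hc3
    have e1 : 4 * s ^ 2 / (τ * q * P) * (τ * (q : ℝ) ^ 2 * P ^ 2 / (64 * s ^ 2)) = q * P / 16 := by
      field_simp
      norm_num
    have e2 : 4 * s ^ 3 / ((τ : ℝ) ^ 2 * q * P) *
        ((τ : ℝ) ^ 2 * (q : ℝ) ^ 2 * P ^ 2 / (64 * s ^ 3)) = q * P / 16 := by
      field_simp
      norm_num
    rw [e1] at h2
    rw [e2] at h3
    have h4 : 0 < q * P := by positivity
    linarith
  -- independent good colours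
  set RV : Finset V := univ.image (fun k : Fin q => (R k : V)) with hRV
  set GV : Finset V := (Good R).image (fun α : {x // x ∈ S} => (α : V)) with hGV
  obtain ⟨L, g, hLG, hgR, hgL, hspan⟩ := exists_indep_colours RV GV
  have hRVcard : RV.card ≤ q := by
    refine le_trans Finset.card_image_le ?_
    simp
  have hLq : q ≤ L.card := by
    by_contra hcon
    push Not at hcon
    have hT : (RV ∪ L).card ≤ 2 * q := by
      refine le_trans (Finset.card_union_le _ _) ?_
      omega
    have hB : ∀ δ, ((univ.filter fun e => a e ∈ Good R ∧ d e = δ).card : ℝ) ≤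
        K * ρ₀ * (2 * q + 1) := by
      intro δ
      have h1 : (univ.filter fun e => a e ∈ Good R ∧ d e = δ).card ≤
          (univ.filter fun e => (a e : V) ∈ Submodule.span (ZMod 2) ((RV ∪ L : Finset V) : Set V) ∧
            d e = δ).card := by
        refine Finset.card_le_card ?_
        intro e he
        rw [Finset.mem_filter] at he ⊢
        refine ⟨mem_univ _, ?_, he.2.2⟩
        exact hspan _ (Finset.mem_image_of_mem (fun α : {x // x ∈ S} => (α : V)) he.2.1)
      have h2 : ((univ.filter fun e => a e ∈ Good R ∧ d e = δ).card : ℝ) ≤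
          ((univ.filter fun e => (a e : V) ∈ Submodule.span (ZMod 2) ((RV ∪ L : Finset V) : Set V) ∧
            d e = δ).card : ℝ) := by exact_mod_cast h1
      refine le_trans h2 (le_trans (D5 _ δ) ?_)
      have h3 : ((RV ∪ L).card : ℝ) ≤ 2 * q := by exact_mod_cast hT
      exact mul_le_mul_of_nonneg_left (by linarith) (mul_nonneg hK0 hρ₀)
    have h4 := sum_JJ_le a d R (Good R) Ω (K * ρ₀ * (2 * q + 1)) hΩ0 hΩ hA (by positivity) hB
    rw [hcard] at h4
    linarith
  -- the graph
  have hLmem : ∀ l : L, (l : V) ∈ S ∧ ∀ h : (l : V) ∈ S, (⟨l, h⟩ : {x // x ∈ S}) ∈ Good R := by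
    intro l
    obtain ⟨α, hα, hαl⟩ := Finset.mem_image.mp (hLG l.2)
    refine ⟨hαl ▸ α.2, fun h => ?_⟩
    have : α = ⟨l, h⟩ := Subtype.ext hαl
    rw [← this]
    exact hα
  set col : L → {x // x ∈ S} := fun l => ⟨l, (hLmem l).1⟩ with hcol
  have hcolG : ∀ l, col l ∈ Good R := fun l => (hLmem l).2 _
  have hiso := iso_energy (ι := (Fin τ → {x // x ∈ S}) × (Fin τ → {x // x ∈ S})) (L := L)
    (fun x => g ((∑ i, (x.1 i : V)) + ∑ j, (x.2 j : V))) (fun l => W R (col l))
    (fun l x y => hW0 R (col l) x y) (by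
      intro l x y hne l'
      obtain ⟨m, i, j, hm, hx1, hx2, hy⟩ := hWsupp R (col l) x y hne
      have hm' : a m.1 = col l ∧ a m.2.2 = R m.2.1 ∧ d m.2.2 = d m.1 := by
        by_contra hcon
        apply hm
        unfold om
        rw [if_neg hcon]
      have h1 := sum_update_add (V := V) x.1 i (c m.1)
      have h2 := sum_update_add (V := V) x.2 j (c m.2.2)
      rw [← Pi.add_apply, ← map_add, hy]
      simp only
      have h3 : (∑ i, (x.1 i : V)) + ∑ j, (x.2 j : V) +
          ((∑ i', ((Function.update x.1 i (c m.1)) i' : V)) +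
            ∑ j', ((Function.update x.2 j (c m.2.2)) j' : V)) = (l : V) + R m.2.1 := by
        have h4 : (∑ i, (x.1 i : V)) + ∑ j, (x.2 j : V) +
          ((∑ i', ((Function.update x.1 i (c m.1)) i' : V)) +
            ∑ j', ((Function.update x.2 j (c m.2.2)) j' : V)) =
            ((x.1 i : V) + c m.1) + ((x.2 j : V) + c m.2.2) := by
          rw [← h1, ← h2]; abel
        rw [h4, hx1, hx2]
        have r1 := hrel m.1
        have r2 := hrel m.2.2
        rw [hm'.1] at r1
        rw [hm'.2.1, hm'.2.2] at r2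
        have hl : ((col l : {x // x ∈ S}) : V) = l := rfl
        rw [hl] at r1
        have z1 := ZModModule.add_self (b m.1 : V)
        have z2 := ZModModule.add_self (b m.2.2 : V)
        have z3 := ZModModule.add_self (d m.1 : V)
        calc (b m.1 : V) + c m.1 + ((b m.2.2 : V) + c m.2.2)
            = (b m.1 : V) + (c m.1 + d m.1) + ((b m.2.2 : V) + (c m.2.2 + d m.1)) +
                - ((d m.1 : V) + d m.1) := by abel
          _ = (b m.1 : V) + (l + b m.1) + ((b m.2.2 : V) + (R m.2.1 + b m.2.2)) + - 0 := by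
              rw [z3, ← r1, ← r2]
          _ = (l : V) + R m.2.1 + ((b m.1 : V) + b m.1) + ((b m.2.2 : V) + b m.2.2) := by abel
          _ = _ := by rw [z1, z2, add_zero, add_zero]
      have h5 : (R m.2.1 : V) ∈ RV :=
        Finset.mem_image_of_mem (fun k : Fin q => (R k : V)) (mem_univ m.2.1)
      rw [h3, map_add, hgR (R m.2.1 : V) h5, add_zero, hgL l, Pi.single_apply])
  set n : ℝ := (Fintype.card ((Fin τ → {x // x ∈ S}) × (Fin τ → {x // x ∈ S})) : ℝ) with hn'
  have hnval : n = s ^ (2 * τ) := by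
    rw [hn', Fintype.card_prod, Fintype.card_fun, Fintype.card_fin]
    push_cast
    rw [hcard]
    ring
  have hn0 : 0 < n := by rw [hnval]; positivity
  have hlog : Real.logb 2 n = 2 * τ * Real.logb 2 s := by
    rw [hnval, Real.logb_pow]
    push_cast
    ring
  have hterm : ∀ l : L, n / 6 ≤ (∑ x, ∑ y, W R (col l) x y) ^ 2 /
      (∑ x, (∑ y, (W R (col l) x y + W R (col l) y x)) ^ 2) := by
    intro l
    have hgood := hcolG l
    simp only [hGood, Finset.mem_filter, Finset.mem_univ, true_and] at hgood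
    have hμ0 : 0 < μ R (col l) := by
      simp only [hμ]
      have h1 : 0 < JJ a d R (col l) := lt_of_lt_of_le (by positivity) hgood.1
      positivity
    have h1 := hWmean R (col l)
    have h2 := hWsq R (col l)
    rw [Fintype.expect_eq_sum_div_card] at h1 h2
    rw [← hn'] at h1 h2
    have h3 : ∑ x, ∑ y, W R (col l) x y = n * μ R (col l) := by
      rw [div_eq_iff hn0.ne'] at h1
      rw [h1, mul_comm]
      rfl
    have h4 : (∑ x, (∑ y, (W R (col l) x y + W R (col l) y x)) ^ 2) ≤ n * (6 * μ R (col l) ^ 2) := by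
      rw [div_le_iff₀ hn0] at h2
      refine le_trans h2 ?_
      rw [mul_comm]
      refine mul_le_mul_of_nonneg_left ?_ hn0.le
      exact hgood.2
    have h5 : 0 < ∑ x, (∑ y, (W R (col l) x y + W R (col l) y x)) ^ 2 := by
      by_contra hcon
      have h6 : ∑ x, (∑ y, (W R (col l) x y + W R (col l) y x)) ^ 2 = 0 :=
        le_antisymm (not_lt.mp hcon) (Finset.sum_nonneg fun _ _ => sq_nonneg _)
      rw [Finset.sum_eq_zero_iff_of_nonneg fun _ _ => sq_nonneg _] at h6
      have h7 : ∑ x, ∑ y, W R (col l) x y = 0 := by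
        refine Finset.sum_eq_zero fun x _ => ?_
        have h8 := h6 x (mem_univ _)
        have h9 : ∑ y, (W R (col l) x y + W R (col l) y x) = 0 := by
          simpa using h8
        rw [Finset.sum_add_distrib] at h9
        have h10 : 0 ≤ ∑ y, W R (col l) x y := Finset.sum_nonneg fun y _ => hW0 _ _ _ _
        have h11 : 0 ≤ ∑ y, W R (col l) y x := Finset.sum_nonneg fun y _ => hW0 _ _ _ _
        linarith
      rw [h7] at h3
      have : 0 < n * μ R (col l) := by positivity
      linarith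
    rw [h3, le_div_iff₀ h5]
    calc n / 6 * ∑ x, (∑ y, (W R (col l) x y + W R (col l) y x)) ^ 2
        ≤ n / 6 * (n * (6 * μ R (col l) ^ 2)) := mul_le_mul_of_nonneg_left h4 (by positivity)
      _ = (n * μ R (col l)) ^ 2 := by ring
  have h1 : (L.card : ℝ) * (n / 6) ≤ n * (2 * τ * Real.logb 2 s) / 2 := by
    rw [← hlog]
    refine le_trans ?_ hiso
    calc (L.card : ℝ) * (n / 6) = ∑ l : L, n / 6 := by
          rw [Finset.sum_const, nsmul_eq_mul, Finset.card_univ, Fintype.card_coe]
      _ ≤ _ := Finset.sum_le_sum fun l _ => hterm l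
  have h2 : (L.card : ℝ) ≤ 6 * τ * Real.logb 2 s := by
    have h3 : n * (L.card : ℝ) ≤ n * (6 * τ * Real.logb 2 s) := by linarith
    exact le_of_mul_le_mul_left h3 hn0
  have h3 : (q : ℝ) ≤ L.card := by exact_mod_cast hLq
  linarith

end Pool.Agent.Lib_helper67.LR
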