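import Pool.Agent.Lib_helper67.LR.KCount

/-!
Case K: the moves and their weights; expectation bounds.
-/

set_option autoImplicit false
set_option linter.unusedSectionVars false

namespace Pool.Agent.Lib_helper67.LR

open Finset
open scoped BigOperators

section

variable {A E : Type} [Fintype A] [DecidableEq A] [Fintype E] [DecidableEq E]

/-- weight of a move: a move is `(e, k, e')` -/
noncomputable def om (a d : E → A) {q : ℕ} (R : Fin q → A) (α : A) (m : E × Fin q × E) : ℝ :=
  if a m.1 = α ∧ a m.2.2 = R m.2.1 ∧ d m.2.2 = d m.1 then ww d (d m.1) else 0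

theorem om_nonneg (a d : E → A) {q : ℕ} (R : Fin q → A) (α : A) (m : E × Fin q × E) :
    0 ≤ om a d R α m := by
  unfold om
  split_ifs
  · exact ww_nonneg _ _
  · exact le_rfl

/-- total weight of the moves of colour `α` -/
noncomputable def JJ (a d : E → A) {q : ℕ} (R : Fin q → A) (α : A) : ℝ := ∑ m, om a d R α m

theorem sum_om_aux (a d : E → A) {q : ℕ} (R : Fin q → A) (α : A) (e : E) (k : Fin q)
    (P : E → Prop) [DecidablePred P] :
    ∑ e', (if P e' then om a d R α (e, k, e') else 0) =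
      if a e = α then ww d (d e) *
        ((univ.filter fun e' => a e' = R k ∧ P e' ∧ d e' = d e).card : ℝ) else 0 := by
  by_cases h : a e = α
  · rw [if_pos h]
    rw [← Finset.sum_boole, Finset.mul_sum]
    refine Finset.sum_congr rfl fun e' _ => ?_
    unfold om
    simp only [h, true_and]
    by_cases h1 : P e' <;> by_cases h2 : a e' = R k <;> by_cases h3 : d e' = d e <;>
      simp [h1, h2, h3]
  · rw [if_neg h]
    refine Finset.sum_eq_zero fun e' _ => ?_
    unfold om
    simp [h]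

theorem JJ_eq (a d : E → A) {q : ℕ} (R : Fin q → A) (α : A) :
    JJ a d R α = ∑ e with a e = α, ww d (d e) * ∑ k, mm a d (R k) (d e) := by
  unfold JJ
  rw [Fintype.sum_prod_type, Finset.sum_filter]
  refine Finset.sum_congr rfl fun e _ => ?_
  rw [Fintype.sum_prod_type]
  have h1 : ∀ k : Fin q, ∑ e', om a d R α (e, k, e') =
      if a e = α then ww d (d e) * mm a d (R k) (d e) else 0 := by
    intro k
    have := sum_om_aux a d R α e k (fun _ => True)
    simp only [if_true, true_and] at this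
    exact this
  rw [Finset.sum_congr rfl fun k _ => h1 k]
  by_cases h : a e = α
  · simp only [if_pos h, Finset.mul_sum]
  · simp only [if_neg h, Finset.sum_const_zero]

theorem om_first (a d π : E → A) {q : ℕ} (R : Fin q → A) (α x : A) :
    ∑ m with π m.1 = x, om a d R α m =
      ∑ e with a e = α ∧ π e = x, ww d (d e) * ∑ k, mm a d (R k) (d e) := by
  rw [Finset.sum_filter, Fintype.sum_prod_type, Finset.sum_filter]
  refine Finset.sum_congr rfl fun e _ => ?_
  rw [Fintype.sum_prod_type]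
  have h1 : ∀ k : Fin q, ∑ e', om a d R α (e, k, e') =
      if a e = α then ww d (d e) * mm a d (R k) (d e) else 0 := by
    intro k
    have := sum_om_aux a d R α e k (fun _ => True)
    simp only [if_true, true_and] at this
    exact this
  by_cases hx : π e = x
  · simp only [hx, if_true, and_true]
    rw [Finset.sum_congr rfl fun k _ => h1 k]
    by_cases h : a e = α
    · simp only [if_pos h, Finset.mul_sum]
    · simp only [if_neg h, Finset.sum_const_zero]
  · simp [hx]

theorem om_second (a d π : E → A) {q : ℕ} (R : Fin q → A) (α x : A) :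
    ∑ m with π m.2.2 = x, om a d R α m =
      ∑ k, ∑ e with a e = R k ∧ π e = x, ww d (d e) * mm a d α (d e) := by
  rw [Finset.sum_filter, Fintype.sum_prod_type, Finset.sum_comm' (t' := univ) (s' := fun _ => univ)
    (by simp), Fintype.sum_prod_type]
  refine Finset.sum_congr rfl fun k _ => ?_
  rw [Finset.sum_filter]
  refine Finset.sum_congr rfl fun e' _ => ?_
  simp only
  by_cases hx : π e' = x
  · simp only [hx, if_true, and_true]
    by_cases hk : a e' = R k
    · rw [if_pos hk]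
      unfold mm
      rw [← Finset.sum_boole, Finset.mul_sum]
      refine Finset.sum_congr rfl fun e _ => ?_
      unfold om
      simp only [hk, true_and]
      by_cases h2 : a e = α <;> by_cases h3 : d e' = d e
      · simp [h2, h3]
      · simp [h2, h3, Ne.symm h3]
      · simp [h2]
      · simp [h2]
    · rw [if_neg hk]
      refine Finset.sum_eq_zero fun e _ => ?_
      unfold om
      simp [hk]
  · simp [hx]

theorem om_third (a d π : E → A) {q : ℕ} (R : Fin q → A) (α x y : A) :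
    ∑ m with π m.1 = x ∧ π m.2.2 = y, om a d R α m =
      ∑ e with a e = α ∧ π e = x, ww d (d e) *
        ∑ k, ((univ.filter fun e' => a e' = R k ∧ π e' = y ∧ d e' = d e).card : ℝ) := by
  rw [Finset.sum_filter, Fintype.sum_prod_type, Finset.sum_filter]
  refine Finset.sum_congr rfl fun e _ => ?_
  rw [Fintype.sum_prod_type]
  simp only
  by_cases hx : π e = x
  · simp only [hx, true_and, and_true]
    rw [Finset.sum_congr rfl fun k _ => sum_om_aux a d R α e k (fun e' => π e' = y)]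
    by_cases h : a e = α
    · simp only [if_pos h, Finset.mul_sum]
    · simp only [if_neg h, Finset.sum_const_zero]
  · simp [hx]

theorem expect_eval [Nonempty A] {q : ℕ} (k : Fin q) (g : A → ℝ) :
    (𝔼 R : Fin q → A, g (R k)) = 𝔼 r, g r := by
  rw [Fintype.expect_equiv (Equiv.funSplitAt k A) (fun R : Fin q → A => g (R k))
    (fun p => g p.1) (fun R => by simp)]
  rw [← Finset.univ_product_univ, Finset.expect_product]
  refine Finset.expect_congr rfl fun r _ => ?_
  simp

theorem sum_JJ (a d : E → A) {q : ℕ} (R : Fin q → A) :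
    ∑ α, JJ a d R α = ∑ e, ww d (d e) * ∑ k, mm a d (R k) (d e) := by
  rw [← Finset.sum_fiberwise (s := univ) (g := a)]
  exact Finset.sum_congr rfl fun α _ => JJ_eq a d R α

/-- the expected total weight -/
theorem expect_JJ [Nonempty A] (a d : E → A) (q : ℕ) :
    (𝔼 R : Fin q → A, ∑ α, JJ a d R α) = q * Fintype.card E := by
  have hs : (0 : ℝ) < Fintype.card A := by exact_mod_cast Fintype.card_pos
  simp only [sum_JJ]
  rw [Finset.expect_sum_comm]
  have h1 : ∀ e : E, (𝔼 R : Fin q → A, ww d (d e) * ∑ k, mm a d (R k) (d e)) = q := by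
    intro e
    rw [← Finset.mul_expect, Finset.expect_sum_comm]
    have h2 : ∀ k : Fin q, (𝔼 R : Fin q → A, mm a d (R k) (d e)) = nn d (d e) / Fintype.card A := by
      intro k
      rw [expect_eval k (fun r => mm a d r (d e)), Fintype.expect_eq_sum_div_card, sum_mm]
    rw [Finset.sum_congr rfl fun k _ => h2 k, Finset.sum_const, Finset.card_univ, Fintype.card_fin,
      nsmul_eq_mul]
    have h3 := ww_mul_nn d e
    calc ww d (d e) * (q * (nn d (d e) / Fintype.card A)) =
          q * ((ww d (d e) * nn d (d e)) / Fintype.card A) := by ring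
      _ = q := by rw [h3, div_self hs.ne', mul_one]
  rw [Finset.sum_congr rfl fun e _ => h1 e, Finset.sum_const, Finset.card_univ, nsmul_eq_mul]
  ring

/-- the total weight of the moves whose colour is in `Z` -/
theorem sum_JJ_le (a d : E → A) {q : ℕ} (R : Fin q → A) (Z : Finset A) (Ω B : ℝ) (hΩ0 : 0 ≤ Ω)
    (hΩ : ∀ e, ww d (d e) ≤ Ω) (hA : ∀ α, ((univ.filter fun e => a e = α).card : ℝ) ≤ Fintype.card A)
    (hB0 : 0 ≤ B)
    (hB : ∀ δ, ((univ.filter fun e => a e ∈ Z ∧ d e = δ).card : ℝ) ≤ B) :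
    ∑ α ∈ Z, JJ a d R α ≤ Ω * (q * Fintype.card A) * B := by
  have h1 : ∑ α ∈ Z, JJ a d R α = ∑ e with a e ∈ Z, ww d (d e) * ∑ k, mm a d (R k) (d e) := by
    rw [Finset.sum_congr rfl fun α _ => JJ_eq a d R α]
    rw [← Finset.sum_fiberwise_of_maps_to (s := univ.filter fun e => a e ∈ Z) (t := Z) (g := a)
      (fun e he => (Finset.mem_filter.mp he).2)]
    refine Finset.sum_congr rfl fun α hα => Finset.sum_congr ?_ fun _ _ => rfl
    ext e
    simp only [Finset.mem_filter, Finset.mem_univ, true_and]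
    exact ⟨fun h => ⟨h ▸ hα, h⟩, fun h => h.2⟩
  rw [h1]
  calc ∑ e with a e ∈ Z, ww d (d e) * ∑ k, mm a d (R k) (d e)
      ≤ ∑ e with a e ∈ Z, Ω * ∑ k, mm a d (R k) (d e) :=
        Finset.sum_le_sum fun e _ => mul_le_mul_of_nonneg_right (hΩ e)
          (Finset.sum_nonneg fun k _ => mm_nonneg _ _ _ _)
    _ = Ω * ∑ e with a e ∈ Z, ∑ k, mm a d (R k) (d e) := by rw [Finset.mul_sum]
    _ ≤ Ω * (B * ∑ δ, ∑ k, mm a d (R k) δ) := by
        refine mul_le_mul_of_nonneg_left ?_ hΩ0
        rw [← Finset.sum_fiberwise (s := univ.filter fun e => a e ∈ Z) (g := d), Finset.mul_sum]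
        refine Finset.sum_le_sum fun δ _ => ?_
        rw [Finset.sum_congr rfl (g := fun _ => ∑ k, mm a d (R k) δ)
          (fun e he => by rw [(Finset.mem_filter.mp he).2])]
        rw [Finset.sum_const, nsmul_eq_mul, Finset.filter_filter]
        exact mul_le_mul_of_nonneg_right (hB δ) (Finset.sum_nonneg fun k _ => mm_nonneg _ _ _ _)
    _ ≤ Ω * (B * (q * Fintype.card A)) := by
        refine mul_le_mul_of_nonneg_left (mul_le_mul_of_nonneg_left ?_ hB0) hΩ0
        rw [Finset.sum_comm]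
        calc ∑ k : Fin q, ∑ δ, mm a d (R k) δ ≤ ∑ k : Fin q, (Fintype.card A : ℝ) := by
              refine Finset.sum_le_sum fun k _ => ?_
              refine le_trans (le_of_eq ?_) (hA (R k))
              unfold mm
              rw [← Nat.cast_sum]
              congr 1
              rw [Finset.card_eq_sum_card_fiberwise (f := d) (t := univ)
                (fun _ _ => Finset.mem_coe.2 (mem_univ _))]
              refine Finset.sum_congr rfl fun δ _ => ?_
              congr 1
              ext e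
              simp
          _ = q * Fintype.card A := by
              rw [Finset.sum_const, Finset.card_univ, Fintype.card_fin, nsmul_eq_mul]
    _ = Ω * (q * Fintype.card A) * B := by ring

/-- the second moment terms with one free end -/
noncomputable def S2 (a b c d : E → A) {q : ℕ} (R : Fin q → A) (α : A) : ℝ :=
  (∑ x, (∑ m with b m.1 = x, om a d R α m) ^ 2) +
  (∑ x, (∑ m with b m.2.2 = x, om a d R α m) ^ 2) +
  (∑ x, (∑ m with c m.1 = x, om a d R α m) ^ 2) +
  (∑ x, (∑ m with c m.2.2 = x, om a d R α m) ^ 2)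

/-- the second moment terms with no free end -/
noncomputable def S3 (a b c d : E → A) {q : ℕ} (R : Fin q → A) (α : A) : ℝ :=
  (∑ x, ∑ y, (∑ m with b m.1 = x ∧ b m.2.2 = y, om a d R α m) ^ 2) +
  (∑ x, ∑ y, (∑ m with c m.1 = x ∧ c m.2.2 = y, om a d R α m) ^ 2)

theorem S2_nonneg (a b c d : E → A) {q : ℕ} (R : Fin q → A) (α : A) : 0 ≤ S2 a b c d R α := by
  unfold S2; positivity

theorem S3_nonneg (a b c d : E → A) {q : ℕ} (R : Fin q → A) (α : A) : 0 ≤ S3 a b c d R α := by
  unfold S3; positivity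

theorem expect_S2 [Nonempty A] (a b c d : E → A) (q : ℕ) (ρ₀ ρ₁ K Ω : ℝ) (hρ₀ : 0 ≤ ρ₀)
    (hρ₁ : 0 ≤ ρ₁) (hΩ0 : 0 ≤ Ω)
    (hab : ∀ α x, (univ.filter fun e => a e = α ∧ b e = x).card ≤ 1)
    (D1 : ∀ α x, ((univ.filter fun e => a e = α ∧ c e = x).card : ℝ) ≤ ρ₁)
    (D2 : ∀ x δ, ((univ.filter fun e => b e = x ∧ d e = δ).card : ℝ) ≤ ρ₁)
    (D3 : ∀ x δ, ((univ.filter fun e => c e = x ∧ d e = δ).card : ℝ) ≤ ρ₀)
    (hK : ∀ α δ, mm a d α δ ≤ K) (hΩ : ∀ e, ww d (d e) ≤ Ω)
    (hA : ∀ α, ((univ.filter fun e => a e = α).card : ℝ) ≤ Fintype.card A) :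
    (𝔼 R : Fin q → A, ∑ α, S2 a b c d R α) ≤
      (1 + ρ₁) * ((q : ℝ) ^ 2 * Fintype.card E + K * q * (Fintype.card A : ℝ) ^ 2) +
      (K * q * (Fintype.card A : ℝ) ^ 2 + (q : ℝ) ^ 2 * Ω * ρ₁ * Fintype.card E) +
      (K * ρ₁ * q * (Fintype.card A : ℝ) ^ 2 + (q : ℝ) ^ 2 * Ω * ρ₀ * Fintype.card E) := by
  have hab' : ∀ α x, ((univ.filter fun e => a e = α ∧ b e = x).card : ℝ) ≤ 1 := fun α x => by
    exact_mod_cast hab α x
  have t1 := T1 a d b q 1 K zero_le_one hab' hK
  have t2 := T2 a d b q 1 ρ₁ K Ω zero_le_one hρ₁ hΩ0 hab' D2 hK hΩ hA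
  have t3 := T1 a d c q ρ₁ K hρ₁ D1 hK
  have t4 := T2 a d c q ρ₁ ρ₀ K Ω hρ₁ hρ₀ hΩ0 D1 D3 hK hΩ hA
  have h : (𝔼 R : Fin q → A, ∑ α, S2 a b c d R α) =
      (𝔼 R : Fin q → A, ∑ α, ∑ x, (∑ e with a e = α ∧ b e = x,
        ww d (d e) * ∑ k, mm a d (R k) (d e)) ^ 2) +
      (𝔼 R : Fin q → A, ∑ α, ∑ x, (∑ k, ∑ e with a e = R k ∧ b e = x,
        ww d (d e) * mm a d α (d e)) ^ 2) +
      (𝔼 R : Fin q → A, ∑ α, ∑ x, (∑ e with a e = α ∧ c e = x,
        ww d (d e) * ∑ k, mm a d (R k) (d e)) ^ 2) +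
      (𝔼 R : Fin q → A, ∑ α, ∑ x, (∑ k, ∑ e with a e = R k ∧ c e = x,
        ww d (d e) * mm a d α (d e)) ^ 2) := by
    rw [← Finset.expect_add_distrib, ← Finset.expect_add_distrib, ← Finset.expect_add_distrib]
    refine Finset.expect_congr rfl fun R _ => ?_
    unfold S2
    simp only [om_first, om_second, Finset.sum_add_distrib]
  rw [h]
  linarith

theorem expect_S3 [Nonempty A] (a b c d : E → A) (q : ℕ) (ρ₀ ρ₁ : ℝ) (hρ₀ : 0 ≤ ρ₀)
    (hρ₁ : 0 ≤ ρ₁)
    (hab : ∀ α x, (univ.filter fun e => a e = α ∧ b e = x).card ≤ 1)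
    (hacd : ∀ r x δ, (univ.filter fun e => a e = r ∧ c e = x ∧ d e = δ).card ≤ 1)
    (D1 : ∀ α x, ((univ.filter fun e => a e = α ∧ c e = x).card : ℝ) ≤ ρ₁)
    (D2 : ∀ x δ, ((univ.filter fun e => b e = x ∧ d e = δ).card : ℝ) ≤ ρ₁)
    (D3 : ∀ x δ, ((univ.filter fun e => c e = x ∧ d e = δ).card : ℝ) ≤ ρ₀) :
    (𝔼 R : Fin q → A, ∑ α, S3 a b c d R α) ≤
      q * (Fintype.card A : ℝ) ^ 2 * (1 + q * ρ₁ / Fintype.card A) +
      ρ₁ * q * (Fintype.card A : ℝ) ^ 2 * (1 + q * ρ₀ / Fintype.card A) := by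
  have hab' : ∀ α x, ((univ.filter fun e => a e = α ∧ b e = x).card : ℝ) ≤ 1 := fun α x => by
    exact_mod_cast hab α x
  have habd : ∀ r x δ, (univ.filter fun e => a e = r ∧ b e = x ∧ d e = δ).card ≤ 1 := by
    intro r x δ
    refine le_trans (Finset.card_le_card ?_) (hab r x)
    intro e
    simp only [Finset.mem_filter, Finset.mem_univ, true_and]
    tauto
  have t1 := T3 a d b q 1 ρ₁ zero_le_one hρ₁ hab' D2 habd
  have t2 := T3 a d c q ρ₁ ρ₀ hρ₁ hρ₀ D1 D3 hacd
  have h : (𝔼 R : Fin q → A, ∑ α, S3 a b c d R α) =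
      (𝔼 R : Fin q → A, ∑ α, ∑ x, ∑ y, (∑ e with a e = α ∧ b e = x, ww d (d e) *
        ∑ k, ((univ.filter fun e' => a e' = R k ∧ b e' = y ∧ d e' = d e).card : ℝ)) ^ 2) +
      (𝔼 R : Fin q → A, ∑ α, ∑ x, ∑ y, (∑ e with a e = α ∧ c e = x, ww d (d e) *
        ∑ k, ((univ.filter fun e' => a e' = R k ∧ c e' = y ∧ d e' = d e).card : ℝ)) ^ 2) := by
    rw [← Finset.expect_add_distrib]
    refine Finset.expect_congr rfl fun R _ => ?_
    unfold S3
    simp only [om_third, Finset.sum_add_distrib]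
  rw [h]
  linarith

end

end Pool.Agent.Lib_helper67.LR
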