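import Pool.Agent.Lib_helper67.LR.KMain
import Pool.Agent.Lib_helper55.LRXTE

/-!
Selection of pairs; case K for a set of pairs.
-/

set_option autoImplicit false
set_option linter.unusedSectionVars false

namespace Pool.Agent.Lib_helper67.LR

open Finset Pool.Agent.Lib_helper55.LR

section

variable {V : Type} [AddCommGroup V] [Module (ZMod 2) V] [DecidableEq V]

theorem swap_mid {a b c d : V} (h : a + b = c + d) : a + c = b + d := by
  have hb := ZModModule.add_self b
  have hc := ZModModule.add_self c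
  calc a + c = (a + b) + (b + c) - (b + b) := by abel
    _ = (c + d) + (b + c) - 0 := by rw [h, hb]
    _ = (c + c) + (b + d) := by abel
    _ = b + d := by rw [hc, zero_add]

theorem add_eq_zero_iff' {a b : V} : a + b = 0 ↔ a = b := by
  constructor
  · intro h
    have := eq_neg_of_add_eq_zero_left h
    rwa [ZModModule.neg_eq_self] at this
  · rintro rfl
    exact ZModModule.add_self a

/-- a second representation -/
theorem exists_cd (S : Finset V) (α β : V) (h4 : 4 ≤ Nn S (α + β)) :
    ∃ γ δ : V, γ ∈ S ∧ δ ∈ S ∧ γ ≠ α ∧ γ ≠ β ∧ δ ≠ α ∧ δ ≠ β ∧ α + β = γ + δ ∧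
      Nn S (α + γ) ≤ Nn S (α + δ) := by
  have h1 : ({α, β} : Finset V).card < (S.filter fun z => z + (α + β) ∈ S).card := by
    have : ({α, β} : Finset V).card ≤ 2 := Finset.card_le_two
    have h4' : 4 ≤ (S.filter fun z => z + (α + β) ∈ S).card := h4
    omega
  obtain ⟨z, hz, hz'⟩ := Finset.exists_mem_notMem_of_card_lt_card h1
  rw [Finset.mem_filter] at hz
  simp only [Finset.mem_insert, Finset.mem_singleton, not_or] at hz'
  have hzz := ZModModule.add_self z
  have hsum : α + β = z + (z + (α + β)) := by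
    rw [← add_assoc, hzz, zero_add]
  have hw1 : z + (α + β) ≠ α := by
    intro h
    apply hz'.2
    have h2 : z + (α + β) = (z + β) + α := by abel
    rw [h2] at h
    have h3 : z + β = 0 := by simpa using h
    exact add_eq_zero_iff'.mp h3
  have hw2 : z + (α + β) ≠ β := by
    intro h
    apply hz'.1
    have h2 : z + (α + β) = (z + α) + β := by abel
    rw [h2] at h
    have h3 : z + α = 0 := by simpa using h
    exact add_eq_zero_iff'.mp h3
  rcases le_total (Nn S (α + z)) (Nn S (α + (z + (α + β)))) with h | h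
  · exact ⟨z, z + (α + β), hz.1, hz.2, hz'.1, hz'.2, hw1, hw2, hsum, h⟩
  · exact ⟨z + (α + β), z, hz.2, hz.1, hw1, hw2, hz'.1, hz'.2, by rw [add_comm _ z]; exact hsum, h⟩

open Classical in
theorem caseK_pairs (S : Finset V) (K : ℝ) (hK : Spread S K) (P0 : Finset (V × V))
    (γ δ : V × V → V)
    (hp : ∀ p ∈ P0, p.1 ∈ S ∧ p.2 ∈ S ∧ γ p ∈ S ∧ δ p ∈ S ∧ p.1 ≠ p.2 ∧ γ p ≠ p.1 ∧ γ p ≠ p.2 ∧
      δ p ≠ p.1 ∧ δ p ≠ p.2 ∧ p.1 + p.2 = γ p + δ p)
    (ρ₀ ρ₁ : ℝ) (hρ₀ : 0 ≤ ρ₀) (hρ₁ : 0 ≤ ρ₁)
    (h0 : ∀ p ∈ P0, (Nn S (p.1 + p.2) : ℝ) ≤ ρ₀) (h1 : ∀ p ∈ P0, (Nn S (p.1 + γ p) : ℝ) ≤ ρ₁)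
    (s Ω : ℝ) (hs : s = S.card) (hP0 : P0.Nonempty) (hΩ0 : 0 ≤ Ω) (hΩ : 4 * s ^ 2 ≤ Ω * P0.card)
    (q τ : ℕ) (hq : 0 < q) (hτ : 0 < τ)
    (hnum : ∀ P : ℝ, 3 / 4 * (P0.card : ℝ) ≤ P →
      (1 + ρ₁) * ((q : ℝ) ^ 2 * P + K * q * s ^ 2) +
      (K * q * s ^ 2 + (q : ℝ) ^ 2 * Ω * ρ₁ * P) +
      (K * ρ₁ * q * s ^ 2 + (q : ℝ) ^ 2 * Ω * ρ₀ * P) ≤ τ * (q : ℝ) ^ 2 * P ^ 2 / (64 * s ^ 2) ∧
      q * s ^ 2 * (1 + q * ρ₁ / s) + ρ₁ * q * s ^ 2 * (1 + q * ρ₀ / s) ≤
      (τ : ℝ) ^ 2 * (q : ℝ) ^ 2 * P ^ 2 / (64 * s ^ 3) ∧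
      Ω * (q * s) * (K * ρ₀ * (2 * q + 1)) < q * P / 2)
    (N4 : 6 * τ * Real.logb 2 s < q) : False := by
  obtain ⟨p₀, hp₀⟩ := hP0
  have hSne : S.Nonempty := ⟨p₀.1, (hp p₀ hp₀).1⟩
  have hs0 : 0 < s := by rw [hs]; exact_mod_cast hSne.card_pos
  have hP0pos : (0 : ℝ) < P0.card := by exact_mod_cast Finset.card_pos.mpr ⟨p₀, hp₀⟩
  have hK0 : 0 ≤ K := Spread.nonneg hK
  -- pruning
  set PK := P0.filter fun p => (P0.card : ℝ) ≤ 4 * s * ((P0.filter fun p' => δ p' = δ p).card : ℝ)
    with hPK
  have hPKsub : PK ⊆ P0 := Finset.filter_subset _ _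
  have hprune : 3 / 4 * (P0.card : ℝ) ≤ PK.card := by
    have e1 : (P0.card : ℝ) = PK.card + (P0.filter fun p => ¬ ((P0.card : ℝ) ≤
        4 * s * ((P0.filter fun p' => δ p' = δ p).card : ℝ))).card := by
      rw [hPK]
      exact_mod_cast (Finset.card_filter_add_card_filter_not (s := P0) _).symm
    have e2 : ((P0.filter fun p => ¬ ((P0.card : ℝ) ≤
        4 * s * ((P0.filter fun p' => δ p' = δ p).card : ℝ))).card : ℝ) ≤ P0.card / 4 := by
      rw [Finset.card_eq_sum_card_fiberwise (f := δ) (t := S) (by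
        intro p hpm
        rw [Finset.mem_coe, Finset.mem_filter] at hpm
        exact Finset.mem_coe.2 (hp p hpm.1).2.2.2.1)]
      push_cast
      calc ∑ x ∈ S, (((P0.filter fun p => ¬ ((P0.card : ℝ) ≤
          4 * s * ((P0.filter fun p' => δ p' = δ p).card : ℝ))).filter fun p => δ p = x).card : ℝ)
          ≤ ∑ x ∈ S, P0.card / (4 * s) := by
            refine Finset.sum_le_sum fun x _ => ?_
            by_cases hx : (P0.card : ℝ) ≤ 4 * s * ((P0.filter fun p' => δ p' = x).card : ℝ)
            · have : ((P0.filter fun p => ¬ ((P0.card : ℝ) ≤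
                  4 * s * ((P0.filter fun p' => δ p' = δ p).card : ℝ))).filter
                    fun p => δ p = x) = ∅ := by
                rw [Finset.filter_eq_empty_iff]
                intro p hpm hpx
                rw [Finset.mem_filter, hpx] at hpm
                exact hpm.2 hx
              rw [this]
              simp only [Finset.card_empty, Nat.cast_zero]
              exact div_nonneg hP0pos.le (by linarith)
            · push Not at hx
              have h2 : ((P0.filter fun p' => δ p' = x).card : ℝ) ≤ P0.card / (4 * s) := by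
                rw [le_div_iff₀ (by positivity)]
                linarith
              refine le_trans ?_ h2
              have h3 : ((P0.filter fun p => ¬ ((P0.card : ℝ) ≤
                  4 * s * ((P0.filter fun p' => δ p' = δ p).card : ℝ))).filter
                    fun p => δ p = x) ⊆ P0.filter fun p' => δ p' = x := by
                intro p hpm
                rw [Finset.mem_filter, Finset.mem_filter] at hpm
                rw [Finset.mem_filter]
                exact ⟨hpm.1.1, hpm.2⟩
              exact_mod_cast Finset.card_le_card h3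
        _ = P0.card / 4 := by
            rw [Finset.sum_const, nsmul_eq_mul, ← hs]
            generalize (P0.card : ℝ) = Pc
            field_simp
    linarith
  -- the edges
  let E := {p // p ∈ PK}
  have hE : ∀ e : E, (e : V × V) ∈ P0 := fun e => hPKsub e.2
  let a : E → {x // x ∈ S} := fun e => ⟨e.1.1, (hp e.1 (hE e)).1⟩
  let b : E → {x // x ∈ S} := fun e => ⟨e.1.2, (hp e.1 (hE e)).2.1⟩
  let c : E → {x // x ∈ S} := fun e => ⟨γ e.1, (hp e.1 (hE e)).2.2.1⟩
  let d : E → {x // x ∈ S} := fun e => ⟨δ e.1, (hp e.1 (hE e)).2.2.2.1⟩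
  have hrel : ∀ e, (a e : V) + b e = c e + d e := fun e => (hp e.1 (hE e)).2.2.2.2.2.2.2.2.2
  have hrel2 : ∀ e, (a e : V) + c e = b e + d e := fun e => swap_mid (hrel e)
  have hrel3 : ∀ e, (a e : V) + d e = b e + c e := fun e =>
    swap_mid (by rw [add_comm (d e : V)]; exact hrel e)
  have hinj : ∀ e e', a e = a e' → b e = b e' → e = e' := by
    intro e e' h2 h3
    apply Subtype.ext
    exact Prod.ext (congrArg Subtype.val h2) (congrArg Subtype.val h3)
  have hcardE : (Fintype.card E : ℝ) = PK.card := by rw [Fintype.card_coe]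
  obtain ⟨N1, N2, N3⟩ := hnum (Fintype.card E) (by rw [hcardE]; exact hprune)
  have hηz : ∀ x y : V, x ≠ y → x + y ≠ 0 := fun x y h h' => h (add_eq_zero_iff'.mp h')
  -- counting lemma
  have key : ∀ (F : Finset E) (η : V) (φ : E → V) (B : ℝ), 0 ≤ B → (∀ e ∈ F, φ e ∈ S) →
      (∀ e ∈ F, φ e + η ∈ S) → (∀ e ∈ F, ∀ e' ∈ F, φ e = φ e' → e = e') →
      (∀ e ∈ F, (Nn S η : ℝ) ≤ B) → (F.card : ℝ) ≤ B := by
    intro F η φ B hB0 hφ hφη hφi hN
    rcases F.eq_empty_or_nonempty with h | ⟨e, he⟩
    · rw [h]; simpa using hB0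
    · refine le_trans ?_ (hN e he)
      have : F.card ≤ (S.filter fun z => z + η ∈ S).card := by
        refine Finset.card_le_card_of_injOn φ ?_ ?_
        · intro e' he'
          rw [Finset.mem_coe, Finset.mem_filter]
          exact ⟨hφ e' he', hφη e' he'⟩
        · intro e' he' e'' he'' h
          exact hφi e' he' e'' he'' h
      exact_mod_cast this
  have D1 : ∀ α x, ((univ.filter fun e => a e = α ∧ c e = x).card : ℝ) ≤ ρ₁ := by
    intro α x
    refine key _ ((α : V) + x) (fun e => b e) ρ₁ hρ₁ (fun e _ => (b e).2) ?_ ?_ ?_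
    · intro e he
      rw [Finset.mem_filter] at he
      have h2 := hrel2 e
      rw [he.2.1, he.2.2] at h2
      rw [h2, ← add_assoc, ZModModule.add_self, zero_add]
      exact (d e).2
    · intro e he e' he' h
      rw [Finset.mem_filter] at he he'
      exact hinj e e' (he.2.1.trans he'.2.1.symm) (Subtype.ext h)
    · intro e he
      rw [Finset.mem_filter] at he
      rw [← he.2.1, ← he.2.2]
      exact h1 e.1 (hE e)
  have D2 : ∀ x y, ((univ.filter fun e => b e = x ∧ d e = y).card : ℝ) ≤ ρ₁ := by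
    intro x y
    refine key _ ((x : V) + y) (fun e => a e) ρ₁ hρ₁ (fun e _ => (a e).2) ?_ ?_ ?_
    · intro e he
      rw [Finset.mem_filter] at he
      have h2 := hrel2 e
      rw [he.2.1, he.2.2] at h2
      rw [← h2, ← add_assoc, ZModModule.add_self, zero_add]
      exact (c e).2
    · intro e he e' he' h
      rw [Finset.mem_filter] at he he'
      exact hinj e e' (Subtype.ext h) (he.2.1.trans he'.2.1.symm)
    · intro e he
      rw [Finset.mem_filter] at he
      rw [← he.2.1, ← he.2.2, ← hrel2 e]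
      exact h1 e.1 (hE e)
  have D3 : ∀ x y, ((univ.filter fun e => c e = x ∧ d e = y).card : ℝ) ≤ ρ₀ := by
    intro x y
    have hb : ∀ e ∈ (univ.filter fun e => c e = x ∧ d e = y), (b e : V) = a e + (x + y) := by
      intro e he
      rw [Finset.mem_filter] at he
      have h2 := hrel e
      rw [he.2.1, he.2.2] at h2
      rw [← h2, ← add_assoc, ZModModule.add_self, zero_add]
    refine key _ ((x : V) + y) (fun e => a e) ρ₀ hρ₀ (fun e _ => (a e).2) ?_ ?_ ?_
    · intro e he
      rw [← hb e he]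
      exact (b e).2
    · intro e he e' he' h
      refine hinj e e' (Subtype.ext h) (Subtype.ext ?_)
      rw [hb e he, hb e' he']
      exact congrArg (· + ((x : V) + y)) h
    · intro e he
      rw [Finset.mem_filter] at he
      rw [← he.2.1, ← he.2.2, ← hrel e]
      exact h0 e.1 (hE e)
  have D6 : ∀ α y, ((univ.filter fun e => a e = α ∧ d e = y).card : ℝ) ≤ K := by
    intro α y
    refine key _ ((α : V) + y) (fun e => b e) K hK0 (fun e _ => (b e).2) ?_ ?_ ?_
    · intro e he
      rw [Finset.mem_filter] at he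
      have h2 := hrel3 e
      rw [he.2.1, he.2.2] at h2
      rw [h2, ← add_assoc, ZModModule.add_self, zero_add]
      exact (c e).2
    · intro e he e' he' h
      rw [Finset.mem_filter] at he he'
      exact hinj e e' (he.2.1.trans he'.2.1.symm) (Subtype.ext h)
    · intro e he
      rw [Finset.mem_filter] at he
      refine Nn_le hK ?_
      rw [← he.2.1, ← he.2.2]
      exact hηz _ _ (fun h => (hp e.1 (hE e)).2.2.2.2.2.2.2.1 h.symm)
  have D5 : ∀ (T : Finset V) (y : {x // x ∈ S}),
      ((univ.filter fun e => (a e : V) ∈ Submodule.span (ZMod 2) (T : Set V) ∧ d e = y).card : ℝ) ≤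
        K * ρ₀ * (T.card + 1) := by
    intro T y
    have hmem : ∀ e ∈ (univ.filter fun e => (a e : V) ∈ Submodule.span (ZMod 2) (T : Set V) ∧
        d e = y), (c e : V) ∈ Bad S (insert (y : V) T) := by
      intro e he
      rw [Finset.mem_filter] at he
      rw [mem_Bad]
      refine ⟨(c e).2, b e, (b e).2, fun h => (hp e.1 (hE e)).2.2.2.2.2.2.1 h.symm, ?_⟩
      have h2 : (c e : V) + b e = a e + y := by
        rw [add_comm, ← hrel3 e, he.2.2]
      rw [h2]
      refine Submodule.add_mem _ ?_ ?_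
      · exact Submodule.span_mono (by simp) he.2.1
      · exact Submodule.subset_span (by simp)
    rw [Finset.card_eq_sum_card_fiberwise (f := fun e => (c e : V)) (t := Bad S (insert (y : V) T))
      (fun e he => Finset.mem_coe.2 (hmem e (Finset.mem_coe.1 he)))]
    push_cast
    calc ∑ x ∈ Bad S (insert (y : V) T), (((univ.filter fun e => (a e : V) ∈
          Submodule.span (ZMod 2) (T : Set V) ∧ d e = y).filter fun e => (c e : V) = x).card : ℝ)
        ≤ ∑ x ∈ Bad S (insert (y : V) T), ρ₀ := by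
          refine Finset.sum_le_sum fun x hx => ?_
          have hxS : x ∈ S := ((mem_Bad _ _ _).1 hx).1
          refine le_trans ?_ (D3 ⟨x, hxS⟩ y)
          have : ((univ.filter fun e => (a e : V) ∈
              Submodule.span (ZMod 2) (T : Set V) ∧ d e = y).filter fun e => (c e : V) = x) ⊆
              univ.filter fun e => c e = ⟨x, hxS⟩ ∧ d e = y := by
            intro e he
            rw [Finset.mem_filter, Finset.mem_filter] at he
            rw [Finset.mem_filter]
            exact ⟨mem_univ _, Subtype.ext he.2, he.1.2.2⟩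
          exact_mod_cast Finset.card_le_card this
      _ = (Bad S (insert (y : V) T)).card * ρ₀ := by rw [Finset.sum_const, nsmul_eq_mul]
      _ ≤ (K * (T.card + 1)) * ρ₀ := by
          refine mul_le_mul_of_nonneg_right ?_ hρ₀
          refine le_trans (hK _) (mul_le_mul_of_nonneg_left ?_ hK0)
          exact_mod_cast Finset.card_insert_le _ _
      _ = K * ρ₀ * (T.card + 1) := by ring
  have hn : ∀ e, s ≤ Ω * ((univ.filter fun e' => d e' = d e).card : ℝ) := by
    intro e
    have h2 : (P0.filter fun p' => δ p' = δ e.1).card ≤ (univ.filter fun e' => d e' = d e).card := by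
      have h3 : (P0.filter fun p' => δ p' = δ e.1) ⊆
          (univ.filter fun e' => d e' = d e).image Subtype.val := by
        intro p' hp'
        rw [Finset.mem_filter] at hp'
        have h4 : p' ∈ PK := by
          rw [hPK, Finset.mem_filter]
          refine ⟨hp'.1, ?_⟩
          have h5 := (Finset.mem_filter.mp e.2).2
          rw [hp'.2]
          exact h5
        rw [Finset.mem_image]
        refine ⟨⟨p', h4⟩, ?_, rfl⟩
        rw [Finset.mem_filter]
        exact ⟨mem_univ _, Subtype.ext hp'.2⟩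
      exact le_trans (Finset.card_le_card h3) Finset.card_image_le
    have h6 := (Finset.mem_filter.mp e.2).2
    have h7 : ((P0.filter fun p' => δ p' = δ e.1).card : ℝ) ≤
        ((univ.filter fun e' => d e' = d e).card : ℝ) := by exact_mod_cast h2
    set n1 : ℝ := ((P0.filter fun p' => δ p' = δ e.1).card : ℝ) with hn1
    have h8 : 4 * s ^ 2 ≤ Ω * (4 * s * n1) := le_trans hΩ (mul_le_mul_of_nonneg_left h6 hΩ0)
    have h9 : s ≤ Ω * n1 := by
      have h10 : (4 * s) * s ≤ (4 * s) * (Ω * n1) := by nlinarith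
      exact le_of_mul_le_mul_left h10 (by positivity)
    exact le_trans h9 (mul_le_mul_of_nonneg_left h7 hΩ0)
  exact caseK a b c d hSne hrel hinj s Ω ρ₀ ρ₁ K _ hs rfl
    (by rw [hcardE]; linarith) hρ₀ hρ₁ hΩ0 hK0 D1 D2 D3 D6 D5 hn q τ hq hτ N1 N2 N3 N4

end

end Pool.Agent.Lib_helper67.LR
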